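import Pool.Agent.H41.LU.Stmts

/-!
Project LU, part B2, module COR: coordinates on the hyperplane `h = 1`.
-/

set_option autoImplicit false

open scoped BigOperators
open Finset

noncomputable section

namespace Pool.LU

theorem cor : CORStmt := by
  intro n X _ _ _ J _ f ε h hn hh hinj hbd
  classical
  obtain ⟨x1, hx1⟩ : ∃ x, h x ≠ 0 := by
    by_contra hcon
    push Not at hcon
    exact hh (LinearMap.ext hcon)
  set x0 : X := (h x1)⁻¹ • x1 with hx0
  have hx0' : h x0 = 1 := by
    rw [hx0, map_smul, smul_eq_mul, inv_mul_cancel₀ hx1]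
  have hrk : Module.finrank ℝ (LinearMap.ker h) = n := by
    have h1 := LinearMap.finrank_range_add_finrank_ker h
    have h2 : LinearMap.range h = ⊤ := by
      rw [LinearMap.range_eq_top]
      intro t
      exact ⟨t • x0, by rw [map_smul, hx0', smul_eq_mul, mul_one]⟩
    rw [h2, finrank_top, Module.finrank_self, hn] at h1
    omega
  have e : (Fin n → ℝ) ≃ₗ[ℝ] LinearMap.ker h :=
    LinearEquiv.ofFinrankEq _ _ (by rw [hrk, Module.finrank_fin_fun])
  have he : ∀ y, h (e y : X) = 0 := fun y => (e y).2
  let P : SPoly n J :=
    { a := fun j => (f j).comp ((LinearMap.ker h).subtype.comp e.toLinearMap)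
      b := fun j => f j x0 - ε j }
  have hPa : ∀ j y, P.a j y = f j (e y : X) := fun j y => rfl
  have hPl : ∀ j y, P.l j y = f j (x0 + (e y : X)) - ε j := by
    intro j y
    show P.a j y + P.b j = _
    rw [hPa, map_add]
    show f j (e y : X) + (f j x0 - ε j) = _
    ring
  refine ⟨P, fun y => x0 + (e y : X), ?_, hPl, ?_, ?_, ?_⟩
  · -- compactness
    obtain ⟨B, hB⟩ := hbd
    let L : (Fin n → ℝ) →ₗ[ℝ] (J → ℝ) := LinearMap.pi P.a
    have hL : LinearMap.ker L = ⊥ := by
      rw [LinearMap.ker_eq_bot']
      intro y hy
      have h1 : (e y : X) = 0 := hinj _ fun j => congrFun hy j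
      have h2 : e y = 0 := Subtype.ext h1
      exact (LinearEquiv.map_eq_zero_iff e).1 h2
    have hLe : Topology.IsClosedEmbedding L := LinearMap.isClosedEmbedding_of_injective hL
    have hK : IsCompact (L ⁻¹' (Set.univ.pi fun j => Set.Icc (-P.b j) (B - f j x0))) :=
      hLe.isCompact_preimage (isCompact_univ_pi fun j => isCompact_Icc)
    refine hK.of_isClosed_subset ?_ ?_
    · have : P.cham = ⋂ j, {y | 0 ≤ P.l j y} := by
        ext y
        simp [SPoly.cham]
      rw [this]
      refine isClosed_iInter fun j => isClosed_le continuous_const ?_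
      exact (LinearMap.continuous_of_finiteDimensional (P.a j)).add continuous_const
    · intro y hy
      rw [Set.mem_preimage, Set.mem_univ_pi]
      intro j
      have h1 := hy j
      have h2 : P.l j y = P.a j y + P.b j := rfl
      have h3 := hB (x0 + (e y : X)) (by rw [map_add, hx0', he, add_zero]) (fun j => by
        have := hy j
        rw [hPl] at this
        linarith) j
      rw [map_add] at h3
      have h4 : L y j = P.a j y := rfl
      rw [h4, hPa]
      rw [h2, hPa] at h1
      exact ⟨by linarith, by linarith⟩
  · intro y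
    rw [map_add, hx0', he, add_zero]
  · intro x hx
    refine ⟨e.symm ⟨x - x0, ?_⟩, ?_⟩
    · rw [LinearMap.mem_ker, map_sub, hx, hx0', sub_self]
    · simp
  · intro S hS
    have : Fintype S := Fintype.ofFinite _
    rw [Fintype.linearIndependent_iff] at hS ⊢
    intro c hc
    have key : ∀ x : X, h x = 0 → ∑ j : S, c j * f j x = 0 := by
      intro x hx
      have h1 := congrArg (fun l : (Fin n → ℝ) →ₗ[ℝ] ℝ => l (e.symm ⟨x, hx⟩)) hc
      simp only [LinearMap.sum_apply, LinearMap.smul_apply, LinearMap.zero_apply, smul_eq_mul,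
        hPa, LinearEquiv.apply_symm_apply] at h1
      exact h1
    have h2 := hS (fun o => o.elim (-(∑ j : S, c j * f j x0)) c) (by
      rw [Fintype.sum_option]
      apply LinearMap.ext
      intro x
      simp only [Option.elim, LinearMap.add_apply, LinearMap.sum_apply, LinearMap.smul_apply,
        LinearMap.zero_apply, smul_eq_mul]
      have h3 := key (x - h x • x0) (by rw [map_sub, map_smul, hx0', smul_eq_mul, mul_one, sub_self])
      have h4 : ∑ j : S, c j * f j (x - h x • x0) =
          ∑ j : S, c j * f j x - (∑ j : S, c j * f j x0) * h x := by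
        rw [sum_mul, ← sum_sub_distrib]
        refine sum_congr rfl fun j _ => ?_
        rw [map_sub, map_smul, smul_eq_mul]
        ring
      rw [h4] at h3
      linarith)
    intro j
    exact h2 (some j)

end Pool.LU
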