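import Pool.Agent.H41.LU.Stmts

/-!
Project LU, part B2, module IND: the forms of a clique and of a chain are independent.
-/

set_option autoImplicit false

open scoped BigOperators
open Finset

noncomputable section

namespace Pool.LU

theorem ind (hS : STRStmt) : INDStmt := by
  intro X V _ _ _ _ adj w hw σ c hσ hc hch
  classical
  rw [Fintype.linearIndependent_iff]
  intro g hg
  rw [Fintype.sum_sum_type] at hg
  simp only [Sum.elim_inl, Sum.elim_inr] at hg
  obtain ⟨hF, hI⟩ := hS X V adj w hw σ hσ
  -- the coefficients of the chain vanish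
  have hb : ∀ φ : c, g (Sum.inr φ) = 0 := by
    by_contra hcon
    push Not at hcon
    obtain ⟨φ₀, hφ₀⟩ := hcon
    -- choose φ with nonzero coefficient and maximal cardinality
    obtain ⟨φ, hφ, hmax⟩ := (univ.filter (fun φ : c => g (Sum.inr φ) ≠ 0)).exists_max_image
      (fun φ => φ.1.card) ⟨φ₀, by simp [hφ₀]⟩
    rw [mem_filter] at hφ
    have hφ1 := hφ.2
    -- the largest smaller face
    obtain ⟨ψ, hψ, hψmax⟩ := (insert σ (c.filter (fun ψ => ψ ⊂ φ.1))).exists_max_image
      (fun ψ => ψ.card) ⟨σ, mem_insert_self _ _⟩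
    have hσψ : σ ⊆ ψ := by
      rcases mem_insert.1 hψ with rfl | h
      · exact subset_rfl
      · exact (hc ψ (mem_filter.1 h).1).2
    have hψF : IsF w ψ := by
      rcases mem_insert.1 hψ with rfl | h
      · exact hF
      · exact (hc ψ (mem_filter.1 h).1).1.1
    have hψφ : ∃ v ∈ φ.1, v ∉ ψ := by
      by_contra h0
      push Not at h0
      rcases mem_insert.1 hψ with rfl | h
      · apply (hc φ.1 φ.2).1.2
        intro u hu v hv huv
        exact hσ u (h0 u hu) v (h0 v hv) huv
      · exact (mem_filter.1 h).2.2 h0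
    have hsub : ∀ ψ' ∈ c, ψ' ⊂ φ.1 → ψ' ⊆ ψ := by
      intro ψ' h1 h2
      have h3 := hψmax ψ' (mem_insert_of_mem (mem_filter.2 ⟨h1, h2⟩))
      rcases mem_insert.1 hψ with h | h
      · subst h
        have h4 := (hc ψ' h1).2
        rw [eq_of_subset_of_card_le h4 h3]
      · rcases hch ψ' h1 ψ (mem_filter.1 h).1 with h4 | h4
        · exact h4
        · rw [eq_of_subset_of_card_le h4 h3]
    obtain ⟨x, hx0, hx1⟩ := hψF
    have hnn : ∀ v, 0 ≤ w v x := by
      intro v
      by_cases hv : v ∈ ψ
      · rw [hx0 v hv]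
      · exact (hx1 v hv).le
    have h1 := congrArg (fun l : X →ₗ[ℝ] ℝ => l x) hg
    simp only [LinearMap.add_apply, LinearMap.sum_apply, LinearMap.smul_apply,
      LinearMap.zero_apply, smul_eq_mul] at h1
    have h2 : ∑ v : σ, g (Sum.inl v) * w v x = 0 := by
      apply sum_eq_zero
      intro v _
      rw [hx0 v (hσψ v.2), mul_zero]
    have h3 : ∑ φ' : c, g (Sum.inr φ') * bb w φ'.1 x = g (Sum.inr φ) * bb w φ.1 x := by
      apply sum_eq_single φ
      · intro φ' _ hne
        by_cases hz : g (Sum.inr φ') = 0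
        · rw [hz, zero_mul]
        · have h4 := hmax φ' (by simp [hz])
          have hne' : φ'.1 ≠ φ.1 := fun h => hne (Subtype.ext h)
          have h5 : φ'.1 ⊂ φ.1 := by
            rcases hch φ'.1 φ'.2 φ.1 φ.2 with h | h
            · exact h.ssubset_of_ne hne'
            · exact absurd (eq_of_subset_of_card_le h h4).symm hne'
          have h6 := hsub φ'.1 φ'.2 h5
          have h7 : bb w φ'.1 x = 0 := by
            rw [bb, LinearMap.sum_apply]
            exact sum_eq_zero fun v hv => hx0 v (h6 hv)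
          rw [h7, mul_zero]
      · intro h
        exact absurd (mem_univ _) h
    rw [h2, h3, zero_add] at h1
    have h4 : 0 < bb w φ.1 x := by
      rw [bb, LinearMap.sum_apply]
      obtain ⟨v, hv, hv'⟩ := hψφ
      exact sum_pos' (fun u _ => hnn u) ⟨v, hv, hx1 v hv'⟩
    rcases mul_eq_zero.1 h1 with h | h
    · exact hφ1 h
    · exact h4.ne' h
  have ha : ∀ v : σ, g (Sum.inl v) = 0 := by
    rw [Fintype.linearIndependent_iff] at hI
    apply hI
    rw [sum_eq_zero (s := (univ : Finset c)) (fun φ _ => by rw [hb φ, zero_smul]), add_zero] at hg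
    exact hg
  rintro (v | φ)
  · exact ha v
  · exact hb φ

end Pool.LU
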