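import Pool.Agent.H22.LU.DuaE
import Pool.Agent.H99.LU.CStmts

/-!
Project LU, part C, module DUA: Poincare duality for the complexes of a simple polytope.
-/

set_option autoImplicit false

open scoped BigOperators
open Finset

noncomputable section

namespace Pool.LU

theorem dua_faces {n : ℕ} {V : Type} (P : SPoly n V) (hP : P.Good) :
    (fun t : Finset V => P.Face (t : Set V)) = Clq P.adj := by
  funext t
  apply propext
  constructor
  · rintro ⟨x, hx, hs⟩ u hu v hv huv
    exact ⟨huv, x, hx, by
      rintro w (rfl | rfl)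
      · exact hs hu
      · exact hs hv⟩
  · intro h
    exact hP.flag t fun u hu v hv huv => h u hu v hv huv

theorem dua_card {n : ℕ} {V : Type} [Fintype V] (P : SPoly n V) (hP : P.Good) (t : Finset V)
    (ht : Clq P.adj t) : t.card ≤ n := by
  obtain ⟨x, hx, hs⟩ := hP.flag t fun u hu v hv huv => ht u hu v hv huv
  have h1 := hP.simple x hx
  have h2 : LinearIndependent ℝ (fun v : t => P.a v) := by
    have h3 := h1.comp (fun v : t => (⟨v.1, hs v.2⟩ : P.sig x)) (by
      intro a b hab
      exact Subtype.ext (congrArg (fun c : P.sig x => c.1) hab))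
    exact h3
  have h4 := h2.fintype_card_le_finrank
  have h5 : Module.finrank ℝ ((Fin n → ℝ) →ₗ[ℝ] ℝ) = n := by
    rw [Module.finrank_linearMap, Module.finrank_self, Module.finrank_fin_fun, mul_one]
  rw [h5] at h4
  simpa using h4

theorem dua (h : SPHStmt) : DUAStmt := by
  intro n V _ _ P hP X F _ h2 o ho a b hab
  obtain ⟨hE, ε, hε⟩ := h n V P (sg o) hP (Dua.sgn_sg o ho)
  rw [dua_faces P hP] at hE hε
  exact Dua.dua_core X ho h2 n ε hE hε (fun t ht => dua_card P hP t ht) a b hab

end Pool.LU
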