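import Pool.Agent.H99.LU.CDefs

/-!
Project LU, part C, duality: two lemmas of linear algebra.
-/

set_option autoImplicit false

open scoped BigOperators
open Module

noncomputable section

namespace Pool.LU.Dua

variable {F : Type} [Field F]

theorem finrank_map_inj {S T : Type} [AddCommGroup S] [Module F S] [AddCommGroup T] [Module F T]
    (f : S →ₗ[F] T) (A : Submodule F S) (h : ∀ x ∈ A, f x = 0 → x = 0) :
    finrank F (A.map f) = finrank F A := by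
  have hinj : Function.Injective (f.domRestrict A) := by
    rw [← LinearMap.ker_eq_bot, LinearMap.ker_eq_bot']
    rintro ⟨x, hx⟩ hx'
    exact Subtype.ext (h x hx hx')
  have h1 : LinearMap.range (f.domRestrict A) = A.map f := by
    rw [LinearMap.range_domRestrict]
  rw [← h1]
  exact LinearMap.finrank_range_of_inj hinj

/-- quasi-isomorphism lemma -/
theorem qi {S C : Type} [AddCommGroup S] [Module F S] [FiniteDimensional F S] [AddCommGroup C]
    [Module F C] [FiniteDimensional F C] (d : S →ₗ[F] S) (e : C →ₗ[F] C) (ι : C →ₗ[F] S)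
    (T T1 : Submodule F S) (K K1 : Submodule F C) (hι : ∀ x ∈ K, ι x = 0 → x = 0)
    (hdd : ∀ w ∈ T1, d (d w) = 0) (hT : ∀ w ∈ T1, d w ∈ T) (hK : ∀ x ∈ K1, e x ∈ K)
    (hιK : ∀ x ∈ K, ι x ∈ T) (hιK1 : ∀ x ∈ K1, ι x ∈ T1)
    (hcK : ∀ x ∈ K, e x = 0 ↔ d (ι x) = 0) (hcK1 : ∀ x ∈ K1, ∃ c : F, c ≠ 0 ∧ d (ι x) = c • ι (e x))
    (ha : ∀ z ∈ T, d z = 0 → ∃ x ∈ K, ∃ w ∈ T1, z = ι x + d w)
    (hb : ∀ x ∈ K, ∀ w ∈ T1, ι x = d w → ∃ x' ∈ K1, x = e x') :
    finrank F ↥(T ⊓ LinearMap.ker d) - finrank F ↥(T1.map d) =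
      finrank F ↥(K ⊓ LinearMap.ker e) - finrank F ↥(K1.map e) := by
  have hee : ∀ x ∈ K1, e (e x) = 0 := by
    intro x hx
    rw [hcK _ (hK x hx)]
    obtain ⟨c, hc, h⟩ := hcK1 x hx
    have h1 : ι (e x) = c⁻¹ • d (ι x) := by
      rw [h, smul_smul, inv_mul_cancel₀ hc, one_smul]
    rw [h1, map_smul, hdd _ (hιK1 x hx), smul_zero]
  have hsup : (K ⊓ LinearMap.ker e).map ι ⊔ T1.map d = T ⊓ LinearMap.ker d := by
    apply le_antisymm
    · apply sup_le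
      · rintro _ ⟨x, ⟨hx, hx'⟩, rfl⟩
        exact ⟨hιK x hx, (hcK x hx).1 hx'⟩
      · rintro _ ⟨w, hw, rfl⟩
        exact ⟨hT w hw, hdd w hw⟩
    · rintro z ⟨hz, hz'⟩
      obtain ⟨x, hx, w, hw, rfl⟩ := ha z hz hz'
      have h1 : d (ι x) = 0 := by
        have h2 : d (ι x + d w) = 0 := hz'
        rw [map_add, hdd w hw, add_zero] at h2
        exact h2
      refine Submodule.add_mem_sup ⟨x, ⟨hx, (hcK x hx).2 h1⟩, rfl⟩ ⟨w, hw, rfl⟩
  have hinf : (K ⊓ LinearMap.ker e).map ι ⊓ T1.map d = (K1.map e).map ι := by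
    apply le_antisymm
    · rintro z ⟨⟨x, ⟨hx, _⟩, rfl⟩, ⟨w, hw, hw'⟩⟩
      obtain ⟨x', hx', rfl⟩ := hb x hx w hw hw'.symm
      exact ⟨e x', ⟨x', hx', rfl⟩, rfl⟩
    · rintro _ ⟨_, ⟨x, hx, rfl⟩, rfl⟩
      refine ⟨⟨e x, ⟨hK x hx, hee x hx⟩, rfl⟩, ?_⟩
      obtain ⟨c, hc, h⟩ := hcK1 x hx
      refine ⟨c⁻¹ • ι x, T1.smul_mem _ (hιK1 x hx), ?_⟩
      rw [map_smul, h, smul_smul, inv_mul_cancel₀ hc, one_smul]
  have h1 := Submodule.finrank_sup_add_finrank_inf_eq ((K ⊓ LinearMap.ker e).map ι) (T1.map d)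
  rw [hsup, hinf] at h1
  rw [finrank_map_inj ι (K ⊓ LinearMap.ker e) fun x hx hx' => hι x hx.1 hx',
    finrank_map_inj ι (K1.map e) fun x hx hx' => hι x (by
      obtain ⟨x', h3, rfl⟩ := hx
      exact hK x' h3) hx'] at h1
  have h2 : finrank F ↥(K1.map e) ≤ finrank F ↥(K ⊓ LinearMap.ker e) := by
    apply Submodule.finrank_mono
    rintro _ ⟨x, hx, rfl⟩
    exact ⟨hK x hx, hee x hx⟩
  omega

/-- ranks of adjoint maps -/
theorem rkle {S : Type} [AddCommGroup S] [Module F S] [FiniteDimensional F S]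
    (e δ : S →ₗ[F] S) (P : S →ₗ[F] S →ₗ[F] F) (A1 A0 B0 : Submodule F S) (c : F)
    (he : ∀ x ∈ A1, e x ∈ A0) (h : ∀ x ∈ A1, ∀ g ∈ B0, P (e x) g = c * P x (δ g))
    (hN : ∀ a ∈ A0, (∀ g ∈ B0, P a g = 0) → a = 0) :
    finrank F ↥(A1.map e) ≤ finrank F ↥(B0.map δ) := by
  let Θ : S →ₗ[F] Dual F B0 := (LinearMap.lcomp F F B0.subtype).comp P
  have hΘ : ∀ a (g : B0), Θ a g = P a g := fun a g => rfl
  have h1 : finrank F ((A1.map e).map Θ) = finrank F (A1.map e) := by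
    apply finrank_map_inj
    rintro _ ⟨x, hx, rfl⟩ hx'
    apply hN _ (he x hx)
    intro g hg
    have := congrArg (fun l : Dual F B0 => l ⟨g, hg⟩) hx'
    exact this
  have h2 : (A1.map e).map Θ ≤ LinearMap.range (δ.comp B0.subtype).dualMap := by
    rintro _ ⟨_, ⟨x, hx, rfl⟩, rfl⟩
    refine ⟨c • P x, ?_⟩
    ext g
    rw [hΘ, h x hx g.1 g.2]
    rfl
  have h3 : finrank F (LinearMap.range (δ.comp B0.subtype).dualMap) =
      finrank F (LinearMap.range (δ.comp B0.subtype)) :=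
    LinearMap.finrank_range_dualMap_eq_finrank_range _
  have h4 : LinearMap.range (δ.comp B0.subtype) = B0.map δ := by
    rw [LinearMap.range_comp, Submodule.range_subtype]
  rw [← h1, ← h4, ← h3]
  exact Submodule.finrank_mono h2

end Pool.LU.Dua
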