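import Pool.Agent.H99.LU.CDefs
import Pool.Agent.H41.LU.SphDefs

/-!
Project LU, part C, duality: signs, the double complex, exactness of the rows.
-/

set_option autoImplicit false
set_option linter.unusedSectionVars false

open scoped BigOperators
open Finset

noncomputable section

namespace Pool.LU.Dua

section signs

variable {V : Type} [DecidableEq V] (o : V → ℕ)

theorem sg_insert (u v : V) (τ : Finset V) (hu : u ∉ τ) :
    sg o v (insert u τ) = (if o u < o v then -1 else 1) * sg o v τ := by
  unfold sg
  rw [filter_insert]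
  split_ifs with h
  · rw [card_insert_of_notMem (fun h' => hu (mem_filter.1 h').1), pow_succ]
    ring
  · rw [one_mul]

theorem sg_sq (v : V) (τ : Finset V) : sg o v τ * sg o v τ = 1 := by
  unfold sg
  rw [← pow_add, ← two_mul, pow_mul]
  norm_num

theorem sg_anti (ho : Function.Injective o) (u v : V) (τ : Finset V) (huv : u ≠ v) (hu : u ∉ τ)
    (hv : v ∉ τ) : sg o u τ * sg o v (insert u τ) = - (sg o v τ * sg o u (insert v τ)) := by
  rw [sg_insert o u v τ hu, sg_insert o v u τ hv]
  have h : o u ≠ o v := fun h => huv (ho h)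
  rcases lt_or_gt_of_ne h with h | h
  · rw [if_pos h, if_neg (not_lt.2 h.le)]
    ring
  · rw [if_neg (not_lt.2 h.le), if_pos h]
    ring

theorem sgn_sg (ho : Function.Injective o) : Sgn (sg o) where
  unit v τ _ := by
    have h := sg_sq o v τ
    rcases Int.isUnit_iff.1 (IsUnit.of_mul_eq_one _ h) with h | h
    · exact Or.inl h
    · exact Or.inr h
  anti u v τ huv hu hv := sg_anti o ho u v τ huv hu hv

/-- product rule for signs -/
theorem sg_swap (ho : Function.Injective o) (u v : V) (τ : Finset V) (huv : u ≠ v) (hu : u ∉ τ)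
    (hv : v ∉ τ) : sg o v τ * sg o u τ = - (sg o u (insert v τ) * sg o v (insert u τ)) := by
  have h := sg_anti o ho u v τ huv hu hv
  have h1 := sg_sq o u τ
  have h2 := sg_sq o u (insert v τ)
  have h3 : sg o u τ * (sg o u τ * sg o v (insert u τ)) * sg o u (insert v τ) =
      sg o u τ * (- (sg o v τ * sg o u (insert v τ))) * sg o u (insert v τ) := by rw [h]
  have h4 : sg o u τ * (sg o u τ * sg o v (insert u τ)) * sg o u (insert v τ) =
      (sg o u τ * sg o u τ) * (sg o u (insert v τ) * sg o v (insert u τ)) := by ring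
  have h5 : sg o u τ * (- (sg o v τ * sg o u (insert v τ))) * sg o u (insert v τ) =
      - ((sg o u (insert v τ) * sg o u (insert v τ)) * (sg o v τ * sg o u τ)) := by ring
  rw [h4, h5, h1, h2] at h3
  linarith

end signs

theorem sum_anti {V F : Type} [DecidableEq V] [Field F] (h2 : (2 : F) ≠ 0) (S : Finset V)
    (f : V → V → F) (h : ∀ v ∈ S, ∀ w ∈ S, v ≠ w → f w v = - f v w) :
    ∑ v ∈ S, ∑ w ∈ S.erase v, f v w = 0 := by
  have h1 : ∑ v ∈ S, ∑ w ∈ S.erase v, f v w = ∑ w ∈ S, ∑ v ∈ S.erase w, f v w := by
    apply sum_comm'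
    intro v w
    simp only [mem_erase]
    constructor
    · rintro ⟨a, b, c⟩
      exact ⟨⟨fun h => b h.symm, a⟩, c⟩
    · rintro ⟨⟨a, b⟩, c⟩
      exact ⟨b, fun h => a h.symm, c⟩
  have h3 : ∑ w ∈ S, ∑ v ∈ S.erase w, f v w = - ∑ w ∈ S, ∑ v ∈ S.erase w, f w v := by
    rw [← sum_neg_distrib]
    refine sum_congr rfl fun w hw => ?_
    rw [← sum_neg_distrib]
    refine sum_congr rfl fun v hv => ?_
    rw [mem_erase] at hv
    exact h w hw v hv.2 (fun h => hv.1 h.symm)
  have h4 : (2 : F) * ∑ v ∈ S, ∑ w ∈ S.erase v, f v w = 0 := by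
    rw [two_mul]
    nth_rw 1 [h1, h3]
    rw [neg_add_cancel]
  exact (mul_eq_zero.1 h4).resolve_left h2

section

variable {V : Type} [DecidableEq V] {adj : V → V → Prop} (X : XSet V adj) (F : Type) [Field F]
  (o : V → ℕ)

/-- the differential in the direction of the first index -/
def del (u : Finset V → X.X → F) : Finset V → X.X → F := fun s y =>
  ∑ v ∈ s, (sg o v (s.erase v) : F) * (u (s.erase v) y + u (s.erase v) (X.ρ v y))

variable {F o}

theorem del_sub (u u' : Finset V → X.X → F) (s : Finset V) (y : X.X) :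
    del X F o (u - u') s y = del X F o u s y - del X F o u' s y := by
  unfold del
  rw [← sum_sub_distrib]
  refine sum_congr rfl fun v _ => ?_
  simp only [Pi.sub_apply]
  ring

theorem del_add (u u' : Finset V → X.X → F) (s : Finset V) (y : X.X) :
    del X F o (u + u') s y = del X F o u s y + del X F o u' s y := by
  unfold del
  rw [← sum_add_distrib]
  refine sum_congr rfl fun v _ => ?_
  simp only [Pi.add_apply]
  ring

/-- the differential only depends on the values at the subsets -/
theorem del_congr (u u' : Finset V → X.X → F) (s : Finset V)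
    (h : ∀ r, r ⊆ s → ∀ y, u r y = u' r y) (y : X.X) : del X F o u s y = del X F o u' s y := by
  unfold del
  refine sum_congr rfl fun v _ => ?_
  rw [h _ (erase_subset _ _), h _ (erase_subset _ _)]

theorem del_del (ho : Function.Injective o) (h2 : (2 : F) ≠ 0) (u : Finset V → X.X → F)
    (s : Finset V) (hs : Clq adj s) (y : X.X) : del X F o (del X F o u) s y = 0 := by
  unfold del
  have h1 : ∀ v ∈ s, (sg o v (s.erase v) : F) * (∑ w ∈ s.erase v,
      (sg o w ((s.erase v).erase w) : F) * (u ((s.erase v).erase w) y +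
        u ((s.erase v).erase w) (X.ρ w y)) + ∑ w ∈ s.erase v,
      (sg o w ((s.erase v).erase w) : F) * (u ((s.erase v).erase w) (X.ρ v y) +
        u ((s.erase v).erase w) (X.ρ w (X.ρ v y)))) = ∑ w ∈ s.erase v,
      (sg o v (s.erase v) : F) * (sg o w ((s.erase v).erase w) : F) *
        (u ((s.erase v).erase w) y + u ((s.erase v).erase w) (X.ρ w y) +
          u ((s.erase v).erase w) (X.ρ v y) + u ((s.erase v).erase w) (X.ρ w (X.ρ v y))) := by
    intro v _
    rw [← sum_add_distrib, mul_sum]
    refine sum_congr rfl fun w _ => ?_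
    ring
  rw [sum_congr rfl h1]
  apply sum_anti h2
  intro v hv w hw hvw
  have e1 : (s.erase w).erase v = (s.erase v).erase w := erase_right_comm
  rw [e1]
  have e2 : X.ρ v (X.ρ w y) = X.ρ w (X.ρ v y) := X.comm v w (hs v hv w hw hvw) y
  rw [e2]
  have hv' : v ∉ (s.erase v).erase w := fun h => by simp at h
  have hw' : w ∉ (s.erase v).erase w := fun h => by simp at h
  have e3 : insert w ((s.erase v).erase w) = s.erase v :=
    insert_erase (mem_erase.2 ⟨hvw.symm, hw⟩)
  have e4 : insert v ((s.erase v).erase w) = s.erase w := by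
    rw [← e1]
    exact insert_erase (mem_erase.2 ⟨hvw, hv⟩)
  have h3 := sg_anti o ho v w ((s.erase v).erase w) hvw hv' hw'
  rw [e3, e4] at h3
  have h4 : (sg o v ((s.erase v).erase w) : F) * (sg o w (s.erase w) : F) =
      - ((sg o w ((s.erase v).erase w) : F) * (sg o v (s.erase v) : F)) := by
    exact_mod_cast congrArg (fun a : ℤ => (a : F)) h3
  have h5 : (sg o w (s.erase w) : F) * (sg o v ((s.erase v).erase w) : F) =
      - ((sg o v (s.erase v) : F) * (sg o w ((s.erase v).erase w) : F)) := by
    rw [mul_comm, h4, mul_comm]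
  rw [h5]
  ring

/-- the homotopy of the rows -/
def hmt (v : V) (u : Finset V → X.X → F) : Finset V → X.X → F := fun s y =>
  if v ∈ s then 0 else (sg o v s : F) * (if X.χ v y = 1 then u (insert v s) y else 0)

theorem chi_cases (v : V) (y : X.X) (a : F) :
    (if X.χ v y = 1 then a else 0) + (if X.χ v (X.ρ v y) = 1 then a else 0) = a := by
  rw [X.χ_self]
  rcases Int.units_eq_one_or (X.χ v y) with h | h
  · rw [h, if_pos rfl, if_neg (by decide), add_zero]
  · rw [h, if_neg (by decide), if_pos (by decide), zero_add]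

theorem del_hmt (ho : Function.Injective o) (v : V) (u : Finset V → X.X → F) (s : Finset V)
    (hsym : ∀ r, ∀ w ∈ r, ∀ y, u r (X.ρ w y) = u r y)
    (hc : v ∉ s → ∀ y, del X F o u (insert v s) y = 0) (y : X.X) :
    del X F o (hmt X (o := o) v u) s y = if v ∈ s then u s y else
      if X.χ v y = 1 then u s y + u s (X.ρ v y) else 0 := by
  by_cases hv : v ∈ s
  · rw [if_pos hv]
    unfold del
    rw [sum_eq_single_of_mem v hv]
    · have h1 : v ∉ s.erase v := notMem_erase v s
      unfold hmt
      rw [if_neg h1, if_neg h1, insert_erase hv, hsym s v hv y, ← mul_add, chi_cases, ← mul_assoc]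
      have := sg_sq o v (s.erase v)
      have h2 : (sg o v (s.erase v) : F) * (sg o v (s.erase v) : F) = 1 := by
        exact_mod_cast congrArg (fun a : ℤ => (a : F)) this
      rw [h2, one_mul]
    · intro w hw hwv
      have h1 : v ∈ s.erase w := mem_erase.2 ⟨hwv.symm, hv⟩
      unfold hmt
      rw [if_pos h1, if_pos h1, add_zero, mul_zero]
  · rw [if_neg hv]
    have h0 := hc hv y
    unfold del at h0
    rw [sum_insert hv, erase_insert hv] at h0
    unfold del
    have h1 : ∀ w ∈ s, (sg o w (s.erase w) : F) * (hmt X (o := o) v u (s.erase w) y +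
        hmt X (o := o) v u (s.erase w) (X.ρ w y)) = (if X.χ v y = 1 then (1 : F) else 0) *
        (- (sg o v s : F)) * ((sg o w ((insert v s).erase w) : F) *
          (u ((insert v s).erase w) y + u ((insert v s).erase w) (X.ρ w y))) := by
      intro w hw
      have hvw : v ≠ w := fun h => hv (h ▸ hw)
      have h3 : v ∉ s.erase w := fun h => hv (mem_of_mem_erase h)
      have h3' : w ∉ s.erase w := notMem_erase w s
      have e1 : (insert v s).erase w = insert v (s.erase w) := by
        rw [erase_insert_of_ne hvw]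
      unfold hmt
      rw [if_neg h3, if_neg h3, X.χ_ne v w hvw, e1]
      have h4 := sg_swap o ho v w (s.erase w) hvw h3 h3'
      rw [insert_erase hw] at h4
      have h5 : (sg o w (s.erase w) : F) * (sg o v (s.erase w) : F) =
          - ((sg o v s : F) * (sg o w (insert v (s.erase w)) : F)) := by
        exact_mod_cast congrArg (fun a : ℤ => (a : F)) h4
      split_ifs
      · have : (sg o w (s.erase w) : F) * ((sg o v (s.erase w) : F) *
            u (insert v (s.erase w)) y + (sg o v (s.erase w) : F) *
            u (insert v (s.erase w)) (X.ρ w y)) = ((sg o w (s.erase w) : F) *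
            (sg o v (s.erase w) : F)) * (u (insert v (s.erase w)) y +
            u (insert v (s.erase w)) (X.ρ w y)) := by ring
        rw [this, h5]
        ring
      · simp
    rw [sum_congr rfl h1, ← mul_sum]
    have h6 := eq_neg_of_add_eq_zero_right h0
    rw [h6]
    have h7 : (sg o v s : F) * (sg o v s : F) = 1 := by
      exact_mod_cast congrArg (fun a : ℤ => (a : F)) (sg_sq o v s)
    split_ifs
    · have : 1 * -(sg o v s : F) * -((sg o v s : F) * (u s y + u s (X.ρ v y))) =
          ((sg o v s : F) * (sg o v s : F)) * (u s y + u s (X.ρ v y)) := by ring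
      rw [this, h7, one_mul]
    · ring

/-- exactness of the rows -/
theorem row (ho : Function.Injective o) (h2 : (2 : F) ≠ 0) (t : Finset V) (ht : Clq adj t) (k : ℕ)
    (u : Finset V → X.X → F) (hu : ∀ s, u s ≠ 0 → s ⊆ t ∧ s.card = k + 1)
    (hsym : ∀ s, ∀ v ∈ s, ∀ y, u s (X.ρ v y) = u s y)
    (hd : ∀ s, s ⊆ t → ∀ y, del X F o u s y = 0) :
    ∃ w : Finset V → X.X → F, (∀ s, w s ≠ 0 → s ⊆ t ∧ s.card = k) ∧
      (∀ s, ∀ v ∈ s, ∀ y, w s (X.ρ v y) = w s y) ∧ ∀ s, s ⊆ t → ∀ y, del X F o w s y = u s y := by
  classical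
  have key : ∀ b : Finset V, b ⊆ t → ∃ w u' : Finset V → X.X → F,
      (∀ s, w s ≠ 0 → s ⊆ t ∧ s.card = k) ∧ (∀ s, ∀ v ∈ s, ∀ y, w s (X.ρ v y) = w s y) ∧
      (∀ s, s ⊆ t → ∀ y, u' s y = u s y - del X F o w s y) ∧
      (∀ s, u' s ≠ 0 → Disjoint s b ∧ s ⊆ t ∧ s.card = k + 1) ∧
      (∀ s, ∀ v ∈ s, ∀ y, u' s (X.ρ v y) = u' s y) ∧
      (∀ s, s ⊆ t → ∀ y, del X F o u' s y = 0) := by
    intro b
    induction b using Finset.induction_on with
    | empty =>
      intro _
      refine ⟨0, u, fun s hs => absurd rfl hs, fun s v _ y => rfl, ?_, ?_, hsym, hd⟩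
      · intro s _ y
        simp [del]
      · intro s hs
        exact ⟨disjoint_empty_right s, hu s hs⟩
    | insert v b hvb ih =>
      intro hb
      have hvt : v ∈ t := hb (mem_insert_self _ _)
      obtain ⟨w, u', h1, h2', h3, h4, h5, h6⟩ := ih ((subset_insert _ _).trans hb)
      set g := hmt X (F := F) (o := o) v u' with hg
      have hgs : ∀ s, g s ≠ 0 → s ⊆ t ∧ s.card = k := by
        intro s hs
        have hvs : v ∉ s := by
          intro hvs
          apply hs
          funext y
          rw [hg]
          unfold hmt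
          rw [if_pos hvs]
          rfl
        have h7 : u' (insert v s) ≠ 0 := by
          intro h8
          apply hs
          funext y
          rw [hg]
          unfold hmt
          rw [if_neg hvs, h8]
          simp
        obtain ⟨_, h8, h9⟩ := h4 _ h7
        rw [card_insert_of_notMem hvs] at h9
        exact ⟨(subset_insert _ _).trans h8, by omega⟩
      have hgsym : ∀ s, ∀ x ∈ s, ∀ y, g s (X.ρ x y) = g s y := by
        intro s x hx y
        rw [hg]
        unfold hmt
        by_cases hvs : v ∈ s
        · rw [if_pos hvs, if_pos hvs]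
        · rw [if_neg hvs, if_neg hvs, X.χ_ne v x (fun h => hvs (h ▸ hx)),
            h5 (insert v s) x (mem_insert_of_mem hx)]
      have hdg : ∀ s, s ⊆ t → ∀ y, del X F o g s y = if v ∈ s then u' s y else
          if X.χ v y = 1 then u' s y + u' s (X.ρ v y) else 0 := by
        intro s hs y
        exact del_hmt X ho v u' s h5 (fun _ y => h6 _ (insert_subset hvt hs) y) y
      obtain ⟨u'', hu''⟩ : ∃ u'' : Finset V → X.X → F, ∀ s y,
          u'' s y = if s ⊆ t then u' s y - del X F o g s y else 0 := ⟨_, fun _ _ => rfl⟩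
      refine ⟨w + g, u'', ?_, ?_, ?_, ?_, ?_, ?_⟩
      · intro s hs
        by_cases h : w s = 0
        · exact hgs s fun h' => hs (by rw [Pi.add_apply, h, h', add_zero])
        · exact h1 s h
      · intro s x hx y
        rw [Pi.add_apply, Pi.add_apply, Pi.add_apply, h2' s x hx, hgsym s x hx]
      · intro s hs y
        rw [hu'', if_pos hs, h3 s hs, del_add]
        ring
      · intro s hs
        have hst : s ⊆ t := by
          by_contra h
          apply hs
          funext y
          rw [hu'', if_neg h]
          rfl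
        have hvs : v ∉ s := by
          intro h
          apply hs
          funext y
          rw [hu'', if_pos hst, hdg s hst, if_pos h, sub_self]
          rfl
        have hne : u' s ≠ 0 := by
          intro h
          apply hs
          funext y
          rw [hu'', if_pos hst, hdg s hst, if_neg hvs, h]
          simp
        obtain ⟨h7, _, h8⟩ := h4 s hne
        exact ⟨disjoint_insert_right.2 ⟨hvs, h7⟩, hst, h8⟩
      · intro s x hx y
        by_cases hst : s ⊆ t
        · rw [hu'', hu'', if_pos hst, if_pos hst, h5 s x hx, hdg s hst, hdg s hst]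
          by_cases hvs : v ∈ s
          · rw [if_pos hvs, if_pos hvs, h5 s x hx]
          · have hvx : v ≠ x := fun h => hvs (h ▸ hx)
            have hc : X.ρ v (X.ρ x y) = X.ρ x (X.ρ v y) :=
              X.comm v x (ht v hvt x (hst hx) hvx) y
            rw [if_neg hvs, if_neg hvs, X.χ_ne v x hvx, hc, h5 s x hx, h5 s x hx]
        · rw [hu'', hu'', if_neg hst, if_neg hst]
      · intro s hs y
        have e1 : del X F o u'' s y = del X F o (u' - del X F o g) s y := by
          apply del_congr
          intro r hr y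
          rw [hu'', if_pos (hr.trans hs)]
          rfl
        rw [e1, del_sub, h6 s hs, del_del X ho h2 g s (fun a ha c hc => ht a (hs ha) c (hs hc)),
          sub_zero]
  obtain ⟨w, u', h1, h2', h3, h4, h5, h6⟩ := key t subset_rfl
  refine ⟨w, h1, h2', ?_⟩
  intro s hs y
  have h7 : u' s = 0 := by
    by_contra h
    obtain ⟨h8, h9, h10⟩ := h4 s h
    have h11 : s = ∅ := by
      rw [← inter_eq_left.2 h9]
      exact disjoint_iff_inter_eq_empty.1 h8
    rw [h11, card_empty] at h10
    omega
  have h8 := h3 s hs y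
  rw [h7] at h8
  have h9 : (0 : F) = u s y - del X F o w s y := h8
  exact (sub_eq_zero.1 h9.symm).symm

end

end Pool.LU.Dua
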