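import Pool.Agent.H22.LU.DuaA
import Pool.Agent.H22.LU.DuaB

/-!
Project LU, part C, duality: the total complex and the two inclusions.
-/

set_option autoImplicit false
set_option linter.unusedSectionVars false

open scoped BigOperators
open Finset

noncomputable section

namespace Pool.LU.Dua

section

variable {V : Type} [Fintype V] [DecidableEq V] {adj : V → V → Prop} (X : XSet V adj)
  (F : Type) [Field F] (o : V → ℕ)

/-- the differential of the total complex -/
def dT : (Finset V → Finset V → X.X → F) →ₗ[F] (Finset V → Finset V → X.X → F) where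
  toFun z := fun s t y => if s ⊆ t then
    bd F o X.X (z s) t y + (-1) ^ t.card * del X F o (fun r => z r t) s y else 0
  map_add' z z' := by
    funext s t y
    by_cases h : s ⊆ t
    · simp only [if_pos h, Pi.add_apply, map_add]
      have : (fun r => z r t + z' r t) = (fun r => z r t) + (fun r => z' r t) := rfl
      rw [this, del_add]
      ring
    · simp [h]
  map_smul' c z := by
    funext s t y
    by_cases h : s ⊆ t
    · simp only [if_pos h, Pi.smul_apply, map_smul, smul_eq_mul, RingHom.id_apply]
      have : del X F o (fun r => c • z r t) s y = c * del X F o (fun r => z r t) s y := by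
        unfold del
        rw [mul_sum]
        refine sum_congr rfl fun v _ => ?_
        simp only [Pi.smul_apply, smul_eq_mul]
        ring
      rw [this]
      ring
    · simp [h]

variable {F o}

theorem dT_apply (z : Finset V → Finset V → X.X → F) (s t : Finset V) (y : X.X) :
    dT X F o z s t y = if s ⊆ t then
      bd F o X.X (z s) t y + (-1) ^ t.card * del X F o (fun r => z r t) s y else 0 := rfl

variable (F)

/-- the total complex -/
def Tot (j : ℕ) : Submodule F (Finset V → Finset V → X.X → F) where
  carrier := {z | (∀ s t, z s t ≠ 0 → s ⊆ t ∧ t.card = s.card + j ∧ Clq adj t) ∧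
    ∀ s t, ∀ v ∈ s, ∀ y, z s t (X.ρ v y) = z s t y}
  add_mem' := by
    rintro z z' ⟨h1, h2⟩ ⟨h1', h2'⟩
    refine ⟨fun s t h => ?_, fun s t v hv y => ?_⟩
    · by_cases h3 : z s t = 0
      · exact h1' s t fun h4 => h (by rw [Pi.add_apply, Pi.add_apply, h3, h4, add_zero])
      · exact h1 s t h3
    · simp only [Pi.add_apply, h2 s t v hv y, h2' s t v hv y]
  zero_mem' := ⟨fun s t h => absurd rfl h, fun s t v _ y => rfl⟩
  smul_mem' := by
    rintro c z ⟨h1, h2⟩
    refine ⟨fun s t h => h1 s t fun h3 => h (by rw [Pi.smul_apply, Pi.smul_apply, h3, smul_zero]),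
      fun s t v hv y => ?_⟩
    simp only [Pi.smul_apply, h2 s t v hv y]

variable {F}

theorem Clq.mono {s t : Finset V} (h : Clq adj t) (hs : s ⊆ t) : Clq adj s :=
  fun u hu v hv huv => h u (hs hu) v (hs hv) huv

theorem del_zero (u : Finset V → X.X → F) (s : Finset V) (h : ∀ v ∈ s, u (s.erase v) = 0)
    (y : X.X) : del X F o u s y = 0 := by
  unfold del
  refine sum_eq_zero fun v hv => ?_
  rw [h v hv]
  simp

theorem bd_zero (x : Finset V → X.X → F) (t : Finset V) (h : ∀ v, v ∉ t → x (insert v t) = 0)
    (y : X.X) : bd F o X.X x t y = 0 := by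
  rw [bd_apply]
  refine sum_eq_zero fun v hv => ?_
  rw [h v (mem_sdiff.1 hv).2]
  simp

theorem dT_mem (j : ℕ) (z : Finset V → Finset V → X.X → F) (hz : z ∈ Tot X F (j + 1)) :
    dT X F o z ∈ Tot X F j := by
  obtain ⟨h1, h2⟩ := hz
  refine ⟨fun s t h => ?_, fun s t v hv y => ?_⟩
  · have hst : s ⊆ t := by
      by_contra h3
      apply h
      funext y
      rw [dT_apply, if_neg h3]
      rfl
    by_cases h3 : ∃ v, v ∉ t ∧ z s (insert v t) ≠ 0
    · obtain ⟨v, hv, h3⟩ := h3
      obtain ⟨_, h4, h5⟩ := h1 _ _ h3
      rw [card_insert_of_notMem hv] at h4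
      exact ⟨hst, by omega, Clq.mono h5 (subset_insert _ _)⟩
    · by_cases h4 : ∃ v ∈ s, z (s.erase v) t ≠ 0
      · obtain ⟨v, hv, h4⟩ := h4
        obtain ⟨_, h5, h6⟩ := h1 _ _ h4
        have h7 := card_erase_add_one hv
        exact ⟨hst, by omega, h6⟩
      · exfalso
        push Not at h3 h4
        apply h
        funext y
        rw [dT_apply, if_pos hst, bd_zero X _ _ h3, del_zero X _ _ h4, mul_zero, add_zero]
        rfl
  · rw [dT_apply, dT_apply]
    by_cases hst : s ⊆ t
    · rw [if_pos hst, if_pos hst]
      congr 1
      · rw [bd_apply, bd_apply]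
        refine sum_congr rfl fun u _ => ?_
        rw [h2 s _ v hv]
      · congr 1
        unfold del
        refine sum_congr rfl fun u hu => ?_
        congr 1
        show z (s.erase u) t (X.ρ v y) + z (s.erase u) t (X.ρ u (X.ρ v y)) =
          z (s.erase u) t y + z (s.erase u) t (X.ρ u y)
        by_cases huv : u = v
        · subst huv
          rw [X.ρρ, add_comm]
        · by_cases h3 : z (s.erase u) t = 0
          · rw [h3]
            rfl
          · have hc := (h1 _ _ h3).2.2
            rw [X.comm u v (hc u (hst hu) v (hst hv) huv),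
              h2 _ _ v (mem_erase.2 ⟨fun h => huv h.symm, hv⟩),
              h2 _ _ v (mem_erase.2 ⟨fun h => huv h.symm, hv⟩)]
    · rw [if_neg hst, if_neg hst]

theorem bd_bd (ho : Function.Injective o) (h2 : (2 : F) ≠ 0) (x : Finset V → X.X → F)
    (t : Finset V) (y : X.X) : bd F o X.X (bd F o X.X x) t y = 0 := by
  rw [bd_apply]
  have h1 : ∀ v ∈ univ \ t, (sg o v t : F) * bd F o X.X x (insert v t) y =
      ∑ w ∈ (univ \ t).erase v, (sg o v t : F) * ((sg o w (insert v t) : F) *
        x (insert w (insert v t)) y) := by
    intro v _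
    rw [bd_apply, mul_sum]
    have : univ \ insert v t = (univ \ t).erase v := by
      ext w
      simp only [mem_sdiff, mem_univ, true_and, mem_insert, not_or, mem_erase]
    rw [this]
  rw [sum_congr rfl h1]
  apply sum_anti h2
  intro v hv w hw hvw
  have hv' := (mem_sdiff.1 hv).2
  have hw' := (mem_sdiff.1 hw).2
  have h3 := sg_anti o ho v w t hvw hv' hw'
  have h4 : (sg o v t : F) * (sg o w (insert v t) : F) =
      - ((sg o w t : F) * (sg o v (insert w t) : F)) := by
    exact_mod_cast congrArg (fun a : ℤ => (a : F)) h3
  rw [← mul_assoc, ← mul_assoc, h4, insert_comm]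
  ring

theorem dT_dT (ho : Function.Injective o) (h2 : (2 : F) ≠ 0) (j : ℕ)
    (z : Finset V → Finset V → X.X → F) (hz : z ∈ Tot X F j) : dT X F o (dT X F o z) = 0 := by
  obtain ⟨h1, _⟩ := hz
  funext s t y
  rw [dT_apply]
  by_cases hst : s ⊆ t
  · rw [if_pos hst]
    show _ = (0 : F)
    have e1 : bd F o X.X (dT X F o z s) t y = - ((-1) ^ t.card *
        ∑ v ∈ univ \ t, (sg o v t : F) * del X F o (fun r => z r (insert v t)) s y) := by
      have e2 : bd F o X.X (dT X F o z s) t y = bd F o X.X (bd F o X.X (z s)) t y +
          ∑ v ∈ univ \ t, (sg o v t : F) * ((-1) ^ (t.card + 1) *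
            del X F o (fun r => z r (insert v t)) s y) := by
        rw [bd_apply, bd_apply, ← sum_add_distrib]
        refine sum_congr rfl fun v hv => ?_
        have hv' := (mem_sdiff.1 hv).2
        rw [dT_apply, if_pos (hst.trans (subset_insert _ _)), card_insert_of_notMem hv']
        ring
      rw [e2, bd_bd X ho h2, zero_add, mul_sum, ← sum_neg_distrib]
      refine sum_congr rfl fun v _ => ?_
      rw [pow_succ]
      ring
    have e3 : del X F o (fun r => dT X F o z r t) s y =
        (∑ v ∈ univ \ t, (sg o v t : F) * del X F o (fun r => z r (insert v t)) s y) +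
        (-1) ^ t.card * del X F o (del X F o (fun r => z r t)) s y := by
      have e4 : del X F o (fun r => dT X F o z r t) s y = del X F o (fun r y =>
          bd F o X.X (z r) t y + (-1) ^ t.card * del X F o (fun r' => z r' t) r y) s y := by
        apply del_congr
        intro r hr y
        show dT X F o z r t y = _
        rw [dT_apply, if_pos (hr.trans hst)]
      rw [e4]
      unfold del
      rw [mul_sum]
      have e5 : ∀ v ∈ univ \ t, (sg o v t : F) * ∑ w ∈ s, (sg o w (s.erase w) : F) *
          (z (s.erase w) (insert v t) y + z (s.erase w) (insert v t) (X.ρ w y)) =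
          ∑ w ∈ s, (sg o v t : F) * ((sg o w (s.erase w) : F) *
          (z (s.erase w) (insert v t) y + z (s.erase w) (insert v t) (X.ρ w y))) :=
        fun v _ => mul_sum _ _ _
      rw [sum_congr rfl e5, sum_comm, ← sum_add_distrib]
      refine sum_congr rfl fun w _ => ?_
      have e6 : ∑ v ∈ univ \ t, (sg o v t : F) * ((sg o w (s.erase w) : F) *
          (z (s.erase w) (insert v t) y + z (s.erase w) (insert v t) (X.ρ w y))) =
          (sg o w (s.erase w) : F) * (bd F o X.X (z (s.erase w)) t y +
          bd F o X.X (z (s.erase w)) t (X.ρ w y)) := by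
        rw [bd_apply, bd_apply, ← sum_add_distrib, mul_sum]
        refine sum_congr rfl fun v _ => ?_
        ring
      rw [e6]
      ring
    have e7 : del X F o (del X F o (fun r => z r t)) s y = 0 := by
      by_cases hc : Clq adj t
      · exact del_del X ho h2 _ s (Clq.mono hc hst) y
      · have hz0 : ∀ r, z r t = 0 := by
          intro r
          by_contra h
          exact hc (h1 _ _ h).2.2
        apply del_zero
        intro v _
        funext y
        exact del_zero X _ _ (fun w _ => hz0 _) y
    rw [e1, e3, e7]
    ring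
  · rw [if_neg hst]
    rfl

/-! ### the inclusion of the complex of the antisymmetric chains -/

variable (F)

/-- the inclusion of the chains -/
def inC : (Finset V → X.X → F) →ₗ[F] (Finset V → Finset V → X.X → F) where
  toFun x := fun s t y => if s = ∅ then x t y else 0
  map_add' x x' := by
    funext s t y
    by_cases h : s = ∅ <;> simp [h]
  map_smul' c x := by
    funext s t y
    by_cases h : s = ∅ <;> simp [h]

variable {F}

theorem inC_apply (x : Finset V → X.X → F) (s t : Finset V) (y : X.X) :
    inC X F x s t y = if s = ∅ then x t y else 0 := rfl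

theorem inC_mem (j : ℕ) (x : Finset V → X.X → F) (hx : x ∈ Ch F adj X.ρ Set.univ j) :
    inC X F x ∈ Tot X F j := by
  obtain ⟨h1, h2⟩ := hx
  refine ⟨fun s t h => ?_, fun s t v hv y => ?_⟩
  · have hs : s = ∅ := by
      by_contra h3
      apply h
      funext y
      rw [inC_apply, if_neg h3]
      rfl
    subst hs
    have h3 : x t ≠ 0 := by
      intro h3
      apply h
      funext y
      rw [inC_apply, if_pos rfl, h3]
    obtain ⟨h4, _, h5⟩ := h1 t h3
    exact ⟨empty_subset _, by rw [card_empty, zero_add, h4], h5⟩
  · rw [inC_apply, inC_apply, if_neg (ne_empty_of_mem hv), if_neg (ne_empty_of_mem hv)]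

theorem inC_inj (x : Finset V → X.X → F) (h : inC X F x = 0) : x = 0 := by
  funext t y
  have := congrFun (congrFun (congrFun h ∅) t) y
  rw [inC_apply, if_pos rfl] at this
  exact this

theorem dT_inC (j : ℕ) (x : Finset V → X.X → F) (hx : x ∈ Ch F adj X.ρ Set.univ j) :
    dT X F o (inC X F x) = inC X F (bd F o X.X x) := by
  obtain ⟨_, h2⟩ := hx
  funext s t y
  rw [dT_apply, inC_apply]
  by_cases hs : s = ∅
  · subst hs
    rw [if_pos (empty_subset _), if_pos rfl, del_zero X _ ∅ (fun v hv => absurd hv (notMem_empty v)),
      mul_zero, add_zero]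
    rfl
  · rw [if_neg hs]
    by_cases hst : s ⊆ t
    · rw [if_pos hst]
      have e1 : bd F o X.X (inC X F x s) t y = 0 := by
        apply bd_zero
        intro v _
        funext y
        rw [inC_apply, if_neg hs]
        rfl
      have e2 : del X F o (fun r => inC X F x r t) s y = 0 := by
        unfold del
        refine sum_eq_zero fun v hv => ?_
        show _ * (inC X F x (s.erase v) t y + inC X F x (s.erase v) t (X.ρ v y)) = 0
        rw [inC_apply, inC_apply]
        split_ifs
        · rw [h2 t v (hst hv), add_neg_cancel, mul_zero]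
        · rw [add_zero, mul_zero]
      rw [e1, e2, mul_zero, add_zero]
    · rw [if_neg hst]

theorem totC (ho : Function.Injective o) (h2 : (2 : F) ≠ 0) (j K : ℕ) :
    ∀ z ∈ Tot X F j, (∀ s t, s ≠ ∅ → dT X F o z s t = 0) → (∀ s t, z s t ≠ 0 → s.card ≤ K) →
    ∃ x ∈ Ch F adj X.ρ Set.univ j, ∃ w ∈ Tot X F (j + 1), z = inC X F x + dT X F o w := by
  classical
  induction K with
  | zero =>
    intro z hz hd hK
    have hs0 : ∀ s t, s ≠ ∅ → z s t = 0 := by
      intro s t hs
      by_contra h
      have := hK s t h
      exact hs (card_eq_zero.1 (by omega))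
    refine ⟨fun t => z ∅ t, ⟨fun t h => ?_, fun t v hv y => ?_⟩, 0, zero_mem _, ?_⟩
    · obtain ⟨_, h3, h4⟩ := hz.1 ∅ t h
      rw [card_empty, zero_add] at h3
      exact ⟨h3, fun v _ => Set.mem_univ v, h4⟩
    · have h3 := congrFun (hd {v} t (singleton_ne_empty v)) y
      rw [dT_apply, if_pos (singleton_subset_iff.2 hv), bd_zero X _ _ (fun u _ =>
        hs0 {v} (insert u t) (singleton_ne_empty v)), zero_add] at h3
      have h4 : del X F o (fun r => z r t) {v} y =
          (sg o v ∅ : F) * (z ∅ t y + z ∅ t (X.ρ v y)) := by
        unfold del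
        rw [sum_singleton, erase_singleton]
      rw [h4] at h3
      have h5 : (sg o v ∅ : F) = 1 := by simp [sg]
      rw [h5, one_mul] at h3
      have h6 : ((-1 : F) ^ t.card) ≠ 0 := pow_ne_zero _ (neg_ne_zero.2 one_ne_zero)
      have h7 := (mul_eq_zero.1 h3).resolve_left h6
      exact eq_neg_of_add_eq_zero_right h7
    · rw [map_zero, add_zero]
      funext s t y
      rw [inC_apply]
      split_ifs with h
      · rw [h]
      · rw [hs0 s t h]
        rfl
  | succ K ih =>
    intro z hz hd hK
    have hu : ∀ t, ∃ w : Finset V → X.X → F, (∀ s, w s ≠ 0 → s ⊆ t ∧ s.card = K ∧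
        t.card = K + 1 + j ∧ Clq adj t) ∧ (∀ s, ∀ v ∈ s, ∀ y, w s (X.ρ v y) = w s y) ∧
        ∀ s, s ⊆ t → s.card = K + 1 → ∀ y, del X F o w s y = z s t y := by
      intro t
      by_cases ht : Clq adj t ∧ t.card = K + 1 + j
      · obtain ⟨u, hu⟩ : ∃ u : Finset V → X.X → F, ∀ s, u s = if s.card = K + 1 then z s t else 0 :=
          ⟨_, fun _ => rfl⟩
        have h3 : ∀ s, u s ≠ 0 → s ⊆ t ∧ s.card = K + 1 := by
          intro s hs
          rw [hu] at hs
          split_ifs at hs with h
          · exact ⟨(hz.1 s t hs).1, h⟩
          · exact absurd rfl hs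
        have h4 : ∀ s, ∀ v ∈ s, ∀ y, u s (X.ρ v y) = u s y := by
          intro s v hv y
          rw [hu]
          split_ifs with h
          · exact hz.2 s t v hv y
          · rfl
        have h5 : ∀ s, s ⊆ t → ∀ y, del X F o u s y = 0 := by
          intro s hs y
          by_cases h : s.card = K + 2
          · have hs0 : s ≠ ∅ := by
              rintro rfl
              rw [card_empty] at h
              omega
            have h6 := congrFun (hd s t hs0) y
            rw [dT_apply, if_pos hs, bd_zero X _ _ (fun v _ => by
              by_contra h7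
              have := hK _ _ h7
              omega), zero_add] at h6
            have h7 : ((-1 : F) ^ t.card) ≠ 0 := pow_ne_zero _ (neg_ne_zero.2 one_ne_zero)
            have h8 := (mul_eq_zero.1 h6).resolve_left h7
            rw [← h8]
            unfold del
            refine sum_congr rfl fun v hv => ?_
            have h9 : (s.erase v).card = K + 1 := by
              rw [card_erase_of_mem hv]
              omega
            rw [hu, if_pos h9]
          · apply del_zero
            intro v hv
            rw [hu, if_neg]
            rw [card_erase_of_mem hv]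
            have := card_pos.2 ⟨v, hv⟩
            omega
        obtain ⟨w, h6, h7, h8⟩ := row X ho h2 t ht.1 K u h3 h4 h5
        refine ⟨w, fun s hs => ⟨(h6 s hs).1, (h6 s hs).2, ht.2, ht.1⟩, h7, fun s hs hs' y => ?_⟩
        rw [h8 s hs, hu, if_pos hs']
      · refine ⟨0, fun s hs => absurd rfl hs, fun s v _ y => rfl, fun s hs hs' y => ?_⟩
        rw [del_zero X 0 s (fun v _ => rfl)]
        symm
        by_contra h
        have h3 : z s t ≠ 0 := fun h4 => h (by rw [h4]; rfl)
        obtain ⟨_, h4, h5⟩ := hz.1 s t h3
        exact ht ⟨h5, by omega⟩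
    choose w hw1 hw2 hw3 using hu
    obtain ⟨W, hW⟩ : ∃ W : Finset V → Finset V → X.X → F, ∀ s t, W s t =
        (-1 : F) ^ t.card • w t s := ⟨_, fun _ _ => rfl⟩
    have hW0 : ∀ s t, W s t ≠ 0 → s ⊆ t ∧ s.card = K ∧ t.card = K + 1 + j ∧ Clq adj t := by
      intro s t h
      apply hw1 t s
      intro h3
      apply h
      rw [hW, h3, smul_zero]
    have hWm : W ∈ Tot X F (j + 1) := by
      refine ⟨fun s t h => ?_, fun s t v hv y => ?_⟩
      · obtain ⟨h3, h4, h5, h6⟩ := hW0 s t h
        exact ⟨h3, by omega, h6⟩
      · rw [hW, Pi.smul_apply, Pi.smul_apply, hw2 t s v hv]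
    have hdW : ∀ s t, s ⊆ t → ∀ y, dT X F o W s t y = bd F o X.X (W s) t y +
        del X F o (w t) s y := by
      intro s t hst y
      rw [dT_apply, if_pos hst]
      congr 1
      have e1 : del X F o (fun r => W r t) s y = (-1) ^ t.card * del X F o (w t) s y := by
        unfold del
        rw [mul_sum]
        refine sum_congr rfl fun v _ => ?_
        show _ * (W (s.erase v) t y + W (s.erase v) t (X.ρ v y)) = _
        rw [hW]
        simp only [Pi.smul_apply, smul_eq_mul]
        ring
      rw [e1, ← mul_assoc, ← mul_pow, neg_mul_neg, one_mul, one_pow, one_mul]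
    obtain ⟨x, hx, w', hw', h3⟩ := ih (z - dT X F o W) (sub_mem hz (dT_mem X j W hWm)) (by
      intro s t hs
      rw [map_sub, dT_dT X ho h2 _ W hWm, sub_zero]
      exact hd s t hs) (by
      intro s t h
      by_contra hlt
      push Not at hlt
      apply h
      funext y
      show z s t y - dT X F o W s t y = 0
      by_cases hst : s ⊆ t
      · rw [hdW s t hst]
        have e1 : bd F o X.X (W s) t y = 0 := by
          apply bd_zero
          intro v _
          by_contra h4
          have := (hW0 _ _ h4).2.1
          omega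
        rw [e1, zero_add]
        by_cases hK1 : s.card = K + 1
        · rw [hw3 t s hst hK1, sub_self]
        · have e2 : z s t = 0 := by
            by_contra h4
            have := hK s t h4
            omega
          have e3 : del X F o (w t) s y = 0 := by
            apply del_zero
            intro v hv
            by_contra h4
            have h5 := (hw1 t _ h4).2.1
            rw [card_erase_of_mem hv] at h5
            omega
          rw [e2, e3]
          simp
      · have e2 : z s t = 0 := by
          by_contra h4
          exact hst (hz.1 s t h4).1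
        rw [e2, dT_apply, if_neg hst]
        simp)
    refine ⟨x, hx, w' + W, add_mem hw' hWm, ?_⟩
    rw [map_add, ← add_assoc, ← h3, sub_add_cancel]

end

end Pool.LU.Dua
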