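import Pool.Agent.H22.LU.DuaC

/-!
Project LU, part C, duality: the dual complex and its inclusion in the total complex.
-/

set_option autoImplicit false
set_option linter.unusedSectionVars false

open scoped BigOperators
open Finset

noncomputable section

namespace Pool.LU.Dua

section

variable {V : Type} [Fintype V] [DecidableEq V] {adj : V → V → Prop} (X : XSet V adj)
  (F : Type) [Field F] (o : V → ℕ)

open Classical in
/-- the differential of the dual complex -/
def dlt : (Finset V → X.X → F) →ₗ[F] (Finset V → X.X → F) where
  toFun g := fun s y => if Clq adj s then del X F o g s y else 0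
  map_add' g g' := by
    funext s y
    by_cases h : Clq adj s
    · simp only [if_pos h, Pi.add_apply, del_add]
    · simp [h]
  map_smul' c g := by
    funext s y
    by_cases h : Clq adj s
    · simp only [if_pos h, Pi.smul_apply, smul_eq_mul, RingHom.id_apply]
      unfold del
      rw [mul_sum]
      refine sum_congr rfl fun v _ => ?_
      simp only [Pi.smul_apply, smul_eq_mul]
      ring
    · simp [h]

open Classical in
theorem dlt_apply (g : Finset V → X.X → F) (s : Finset V) (y : X.X) :
    dlt X F o g s y = if Clq adj s then del X F o g s y else 0 := rfl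

/-- the dual complex, in the degree of the cliques of `n - j` elements -/
def Dc (n j : ℕ) : Submodule F (Finset V → X.X → F) where
  carrier := {g | (∀ s, g s ≠ 0 → s.card + j = n ∧ Clq adj s) ∧
    ∀ s, ∀ v ∈ s, ∀ y, g s (X.ρ v y) = g s y}
  add_mem' := by
    rintro z z' ⟨h1, h2⟩ ⟨h1', h2'⟩
    refine ⟨fun s h => ?_, fun s v hv y => ?_⟩
    · by_cases h3 : z s = 0
      · exact h1' s fun h4 => h (by rw [Pi.add_apply, h3, h4, add_zero])
      · exact h1 s h3
    · simp only [Pi.add_apply, h2 s v hv y, h2' s v hv y]
  zero_mem' := ⟨fun s h => absurd rfl h, fun s v _ y => rfl⟩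
  smul_mem' := by
    rintro c z ⟨h1, h2⟩
    refine ⟨fun s h => h1 s fun h3 => h (by rw [Pi.smul_apply, h3, smul_zero]),
      fun s v hv y => ?_⟩
    simp only [Pi.smul_apply, h2 s v hv y]

variable {F o}

theorem dlt_mem (n j : ℕ) (g : Finset V → X.X → F) (hg : g ∈ Dc X F n (j + 1)) :
    dlt X F o g ∈ Dc X F n j := by
  classical
  obtain ⟨h1, h2⟩ := hg
  refine ⟨fun s h => ?_, fun s v hv y => ?_⟩
  · have hs : Clq adj s := by
      by_contra h3
      apply h
      funext y
      rw [dlt_apply, if_neg h3]
      rfl
    by_cases h3 : ∃ v ∈ s, g (s.erase v) ≠ 0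
    · obtain ⟨v, hv, h3⟩ := h3
      have h4 := (h1 _ h3).1
      have h5 := card_erase_add_one hv
      exact ⟨by omega, hs⟩
    · exfalso
      push Not at h3
      apply h
      funext y
      rw [dlt_apply, if_pos hs, del_zero X _ _ h3]
      rfl
  · rw [dlt_apply, dlt_apply]
    by_cases hs : Clq adj s
    · rw [if_pos hs, if_pos hs]
      unfold del
      refine sum_congr rfl fun u hu => ?_
      congr 1
      by_cases huv : u = v
      · subst huv
        rw [X.ρρ, add_comm]
      · rw [X.comm u v (hs u hu v hv huv), h2 _ v (mem_erase.2 ⟨fun h => huv h.symm, hv⟩),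
          h2 _ v (mem_erase.2 ⟨fun h => huv h.symm, hv⟩)]
    · rw [if_neg hs, if_neg hs]

variable (F) in
/-- the inclusion of the dual complex -/
def inD (ε : Finset V → ℤ) : (Finset V → X.X → F) →ₗ[F] (Finset V → Finset V → X.X → F) where
  toFun g := fun s t y => if s ⊆ t then (ε t : F) * g s y else 0
  map_add' x x' := by
    funext s t y
    by_cases h : s ⊆ t
    · simp [h, mul_add]
    · simp [h]
  map_smul' c x := by
    funext s t y
    by_cases h : s ⊆ t
    · simp [h]
      ring
    · simp [h]

theorem inD_apply (ε : Finset V → ℤ) (g : Finset V → X.X → F) (s t : Finset V) (y : X.X) :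
    inD X F ε g s t y = if s ⊆ t then (ε t : F) * g s y else 0 := rfl

theorem inD_mem (n j : ℕ) (ε : Finset V → ℤ) (hε : ∀ t, ε t ≠ 0 → Clq adj t ∧ t.card = n)
    (g : Finset V → X.X → F) (hg : g ∈ Dc X F n j) : inD X F ε g ∈ Tot X F j := by
  obtain ⟨h1, h2⟩ := hg
  refine ⟨fun s t h => ?_, fun s t v hv y => ?_⟩
  · have hst : s ⊆ t := by
      by_contra h3
      apply h
      funext y
      rw [inD_apply, if_neg h3]
      rfl
    have h3 : g s ≠ 0 := by
      intro h3
      apply h
      funext y
      rw [inD_apply, if_pos hst, h3]
      simp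
    have h4 : ε t ≠ 0 := by
      intro h4
      apply h
      funext y
      rw [inD_apply, if_pos hst, h4]
      simp
    obtain ⟨h5, _⟩ := h1 s h3
    obtain ⟨h6, h7⟩ := hε t h4
    exact ⟨hst, by omega, h6⟩
  · rw [inD_apply, inD_apply, h2 s v hv]

theorem dT_inD (n : ℕ) (ε : Finset V → ℤ) (hε : ∀ t, ε t ≠ 0 → Clq adj t ∧ t.card = n)
    (hcyc : ∀ τ, bdr (sg o) ε τ = 0) (g : Finset V → X.X → F) :
    dT X F o (inD X F ε g) = ((-1 : F) ^ n) • inD X F ε (dlt X F o g) := by
  classical
  funext s t y
  rw [dT_apply, Pi.smul_apply, Pi.smul_apply, Pi.smul_apply, inD_apply, smul_eq_mul]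
  by_cases hst : s ⊆ t
  · rw [if_pos hst, if_pos hst]
    have e1 : bd F o X.X (inD X F ε g s) t y = 0 := by
      have h1 := congrArg (fun a : ℤ => (a : F)) (hcyc t)
      simp only [Int.cast_zero] at h1
      have h2 : bd F o X.X (inD X F ε g s) t y = ((bdr (sg o) ε t : ℤ) : F) * g s y := by
        rw [bd_apply]
        unfold bdr
        rw [Int.cast_sum, sum_mul]
        refine sum_congr rfl fun v _ => ?_
        rw [inD_apply, if_pos (hst.trans (subset_insert _ _))]
        push_cast [smul_eq_mul]
        ring
      rw [h2, h1, zero_mul]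
    have e2 : del X F o (fun r => inD X F ε g r t) s y = (ε t : F) * del X F o g s y := by
      unfold del
      rw [mul_sum]
      refine sum_congr rfl fun v _ => ?_
      show _ * (inD X F ε g (s.erase v) t y + inD X F ε g (s.erase v) t (X.ρ v y)) = _
      rw [inD_apply, inD_apply, if_pos ((erase_subset _ _).trans hst)]
      rw [if_pos ((erase_subset _ _).trans hst)]
      ring
    rw [e1, e2, zero_add]
    by_cases h0 : ε t = 0
    · rw [h0]
      simp
    · obtain ⟨h3, h4⟩ := hε t h0
      rw [dlt_apply, if_pos (Clq.mono h3 hst), h4]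
  · rw [if_neg hst, if_neg hst, mul_zero]

/-- purity -/
theorem pure' (n : ℕ) (hE : ExactS (Clq adj) n (sg o)) (hn : ∀ t : Finset V, Clq adj t → t.card ≤ n) :
    ∀ (k : ℕ) (s : Finset V), Clq adj s → n ≤ s.card + k →
      ∃ t, s ⊆ t ∧ Clq adj t ∧ t.card = n := by
  classical
  intro k
  induction k with
  | zero =>
    intro s hs h
    exact ⟨s, subset_rfl, hs, le_antisymm (hn s hs) (by omega)⟩
  | succ k ih =>
    intro s hs h
    by_cases hk : n ≤ s.card + k
    · exact ih s hs hk
    obtain ⟨q, hq⟩ : ∃ q : Finset V → ℤ, ∀ t, q t = if t = s then 1 else 0 := ⟨_, fun _ => rfl⟩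
    obtain ⟨z, hz, hz'⟩ := hE ℤ s s.card hs (by omega) q (by
      intro t ht
      have : t = s := by
        by_contra h3
        rw [hq, if_neg h3] at ht
        exact ht rfl
      subst this
      exact ⟨hs, subset_rfl, rfl⟩) (by
      intro τ hτ
      unfold bdr
      refine sum_eq_zero fun v hv => ?_
      rw [hq, if_neg, smul_zero]
      intro h3
      have h4 : v ∈ s := h3 ▸ mem_insert_self v τ
      exact (mem_sdiff.1 hv).2 (hτ h4))
    have h3 := hz' s subset_rfl
    rw [hq, if_pos rfl] at h3
    have h4 : ∃ v, v ∉ s ∧ z (insert v s) ≠ 0 := by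
      by_contra h5
      push Not at h5
      have : bdr (sg o) z s = 0 := by
        unfold bdr
        refine sum_eq_zero fun v hv => ?_
        rw [h5 v (mem_sdiff.1 hv).2, smul_zero]
      rw [this] at h3
      exact absurd h3 (by norm_num)
    obtain ⟨v, hv, h5⟩ := h4
    obtain ⟨h6, _, h7⟩ := hz _ h5
    obtain ⟨t, h8, h9⟩ := ih (insert v s) h6 (by omega)
    exact ⟨t, (subset_insert _ _).trans h8, h9⟩

variable (F) in
/-- the functions which are invariant under the generators in `s` -/
def symM (s : Finset V) : Submodule F (X.X → F) where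
  carrier := {f | ∀ v ∈ s, ∀ y, f (X.ρ v y) = f y}
  add_mem' := by
    intro f g hf hg v hv y
    simp only [Pi.add_apply, hf v hv y, hg v hv y]
  zero_mem' := fun v _ y => rfl
  smul_mem' := by
    intro c f hf v hv y
    simp only [Pi.smul_apply, hf v hv y]

theorem bdr_coe (s : Finset V) (u : Finset V → symM X F s) (τ : Finset V) (y : X.X) :
    ((bdr (sg o) u τ : symM X F s) : X.X → F) y = bd F o X.X (fun t => (u t : X.X → F)) τ y := by
  unfold bdr
  rw [bd_apply, AddSubmonoidClass.coe_finsetSum, Finset.sum_apply]
  refine sum_congr rfl fun v _ => ?_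
  have : ((sg o v τ • u (insert v τ) : symM X F s) : X.X → F) y =
      (sg o v τ • ((u (insert v τ) : symM X F s) : X.X → F)) y := rfl
  rw [this, Pi.smul_apply, zsmul_eq_mul]

theorem totD (ho : Function.Injective o) (h2 : (2 : F) ≠ 0) (n j : ℕ) (ε : Finset V → ℤ)
    (hE : ExactS (Clq adj) n (sg o)) (hε : FundS (Clq adj) n (sg o) ε)
    (hn : ∀ t : Finset V, Clq adj t → t.card ≤ n) (K : ℕ) :
    ∀ z ∈ Tot X F j, (∀ s t, t.card < n → dT X F o z s t = 0) →
    (∀ s t, z s t ≠ 0 → n ≤ t.card + K) →
    ∃ g ∈ Dc X F n j, ∃ w ∈ Tot X F (j + 1), z = inD X F ε g + dT X F o w := by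
  classical
  induction K with
  | zero =>
    intro z hz hd hK
    have hzn : ∀ s t, z s t ≠ 0 → t.card = n := by
      intro s t h
      exact le_antisymm (hn t (hz.1 s t h).2.2) (by have := hK s t h; omega)
    have key : ∀ s, ∃ m : symM X F s, ∀ t, s ⊆ t → z s t = (ε t : F) • (m : X.X → F) := by
      intro s
      by_cases hs : Clq adj s
      · obtain ⟨u, hu⟩ : ∃ u : Finset V → symM X F s, ∀ t, (u t : X.X → F) = z s t :=
          ⟨fun t => ⟨z s t, fun v hv y => hz.2 s t v hv y⟩, fun _ => rfl⟩
        obtain ⟨m, hm⟩ := hε.top (symM X F s) s hs u (by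
          intro t ht
          have h3 : z s t ≠ 0 := by
            intro h3
            apply ht
            apply Subtype.ext
            rw [hu, h3]
            rfl
          obtain ⟨h4, _, h5⟩ := hz.1 s t h3
          exact ⟨h5, h4, hzn s t h3⟩) (by
          intro τ hτ
          apply Subtype.ext
          funext y
          rw [bdr_coe]
          have e1 : (fun t => (u t : X.X → F)) = z s := funext hu
          rw [e1]
          by_cases hc : τ.card < n
          · have h3 := congrFun (hd s τ hc) y
            rw [dT_apply, if_pos hτ] at h3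
            have h4 : del X F o (fun r => z r τ) s y = 0 := by
              apply del_zero
              intro v _
              by_contra h5
              have := hzn _ _ h5
              omega
            rw [h4, mul_zero, add_zero] at h3
            rw [h3]
            rfl
          · apply bd_zero
            intro v hv
            by_contra h3
            have h4 := hzn _ _ h3
            rw [card_insert_of_notMem hv] at h4
            omega)
        refine ⟨m, fun t ht => ?_⟩
        have h3 := hm t ht
        have h4 := congrArg (fun a : symM X F s => (a : X.X → F)) h3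
        simp only [hu] at h4
        rw [h4]
        funext y
        have : ((ε t • m : symM X F s) : X.X → F) y = (ε t • (m : X.X → F)) y := rfl
        rw [this, Pi.smul_apply, Pi.smul_apply, zsmul_eq_mul, smul_eq_mul]
      · refine ⟨0, fun t ht => ?_⟩
        have h3 : z s t = 0 := by
          by_contra h3
          exact hs (Clq.mono (hz.1 s t h3).2.2 ht)
        rw [h3]
        simp
    choose m hm using key
    obtain ⟨g, hg⟩ : ∃ g : Finset V → X.X → F, ∀ s,
        g s = if Clq adj s ∧ s.card + j = n then (m s : X.X → F) else 0 := ⟨_, fun _ => rfl⟩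
    refine ⟨g, ⟨fun s hs => ?_, fun s v hv y => ?_⟩, 0, zero_mem _, ?_⟩
    · by_contra h3
      apply hs
      rw [hg, if_neg (fun h4 => h3 ⟨h4.2, h4.1⟩)]
    · rw [hg]
      split_ifs
      · exact (m s).2 v hv y
      · rfl
    · rw [map_zero, add_zero]
      funext s t y
      rw [inD_apply]
      by_cases hst : s ⊆ t
      · rw [if_pos hst, hg]
        by_cases hs : Clq adj s ∧ s.card + j = n
        · rw [if_pos hs, hm s t hst]
          rfl
        · rw [if_neg hs]
          have h3 : z s t = 0 := by
            by_contra h3
            obtain ⟨_, h4, h5⟩ := hz.1 s t h3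
            have h6 := hzn s t h3
            exact hs ⟨Clq.mono h5 hst, by omega⟩
          rw [h3]
          simp
      · rw [if_neg hst]
        have h3 : z s t = 0 := by
          by_contra h3
          exact hst (hz.1 s t h3).1
        rw [h3]
        rfl
  | succ K ih =>
    intro z hz hd hK
    by_cases hKn : n ≤ K
    · exact ih z hz hd fun s t _ => by omega
    push Not at hKn
    obtain ⟨k, hk⟩ : ∃ k, k + K + 1 = n := ⟨n - (K + 1), by omega⟩
    have key : ∀ s, ∃ w : Finset V → symM X F s, SuppS (Clq adj) s (k + 1) w ∧
        (w ≠ 0 → s.card + j = k) ∧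
        ∀ τ, s ⊆ τ → τ.card = k → ∀ y, bd F o X.X (fun t => (w t : X.X → F)) τ y = z s τ y := by
      intro s
      by_cases hs : Clq adj s ∧ s.card + j = k
      · obtain ⟨u, hu⟩ : ∃ u : Finset V → symM X F s, ∀ t, (u t : X.X → F) =
            if t.card = k then z s t else 0 :=
          ⟨fun t => ⟨if t.card = k then z s t else 0, fun v hv y => by
            split_ifs
            · exact hz.2 s t v hv y
            · rfl⟩, fun _ => rfl⟩
        obtain ⟨w, hw1, hw2⟩ := hE (symM X F s) s k hs.1 (by omega) u (by
          intro t ht
          have h3 : (if t.card = k then z s t else 0) ≠ 0 := by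
            intro h3
            apply ht
            apply Subtype.ext
            rw [hu, h3]
            rfl
          split_ifs at h3 with h6
          · obtain ⟨h4, _, h5⟩ := hz.1 s t h3
            exact ⟨h5, h4, h6⟩
          · exact absurd rfl h3) (by
          intro τ hτ
          apply Subtype.ext
          funext y
          rw [bdr_coe]
          show _ = (0 : F)
          by_cases hc : τ.card + 1 = k
          · have h3 := congrFun (hd s τ (by omega)) y
            rw [dT_apply, if_pos hτ] at h3
            have h4 : del X F o (fun r => z r τ) s y = 0 := by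
              apply del_zero
              intro v _
              by_contra h5
              have := hK _ _ h5
              omega
            rw [h4, mul_zero, add_zero] at h3
            have h5 : bd F o X.X (fun t => (u t : X.X → F)) τ y = bd F o X.X (z s) τ y := by
              rw [bd_apply, bd_apply]
              refine sum_congr rfl fun v hv => ?_
              rw [hu, if_pos]
              rw [card_insert_of_notMem (mem_sdiff.1 hv).2]
              exact hc
            rw [h5, h3]
            rfl
          · apply bd_zero
            intro v hv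
            show (u (insert v τ) : X.X → F) = 0
            rw [hu, if_neg]
            rw [card_insert_of_notMem hv]
            exact hc)
        refine ⟨w, hw1, fun _ => hs.2, fun τ hτ hτk y => ?_⟩
        rw [← bdr_coe, hw2 τ hτ, hu, if_pos hτk]
      · refine ⟨0, fun t ht => absurd rfl ht, fun h => absurd rfl h, fun τ hτ hτk y => ?_⟩
        have h3 : z s τ = 0 := by
          by_contra h3
          obtain ⟨_, h4, h5⟩ := hz.1 s τ h3
          exact hs ⟨Clq.mono h5 hτ, by omega⟩
        rw [h3]
        apply bd_zero
        intro v _
        rfl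
    choose w hw1 hw2 hw3 using key
    obtain ⟨W, hW⟩ : ∃ W : Finset V → Finset V → X.X → F, ∀ s t, W s t = (w s t : X.X → F) :=
      ⟨_, fun _ _ => rfl⟩
    have hW0 : ∀ s t, W s t ≠ 0 → s ⊆ t ∧ t.card = k + 1 ∧ s.card + j = k ∧ Clq adj t := by
      intro s t h
      have h3 : w s t ≠ 0 := by
        intro h3
        apply h
        rw [hW, h3]
        rfl
      obtain ⟨h4, h5, h6⟩ := hw1 s t h3
      exact ⟨h5, h6, hw2 s fun h7 => h3 (by rw [h7]; rfl), h4⟩
    have hWm : W ∈ Tot X F (j + 1) := by
      refine ⟨fun s t h => ?_, fun s t v hv y => ?_⟩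
      · obtain ⟨h3, h4, h5, h6⟩ := hW0 s t h
        exact ⟨h3, by omega, h6⟩
      · rw [hW]
        exact (w s t).2 v hv y
    obtain ⟨x, hx, w', hw', h3⟩ := ih (z - dT X F o W) (sub_mem hz (dT_mem X j W hWm)) (by
      intro s t hs
      rw [map_sub, dT_dT X ho h2 _ W hWm, sub_zero]
      exact hd s t hs) (by
      intro s t h
      by_contra hlt
      push Not at hlt
      apply h
      funext y
      show z s t y - dT X F o W s t y = 0
      by_cases hst : s ⊆ t
      · rw [dT_apply, if_pos hst]
        have e1 : del X F o (fun r => W r t) s y = 0 := by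
          apply del_zero
          intro v _
          by_contra h4
          have := (hW0 _ _ h4).2.1
          omega
        rw [e1, mul_zero, add_zero]
        by_cases hK1 : t.card = k
        · have e2 : bd F o X.X (W s) t y = z s t y := by
            rw [← hw3 s t hst hK1 y]
            have : W s = fun t => (w s t : X.X → F) := funext fun t => hW s t
            rw [this]
          rw [e2, sub_self]
        · have e2 : z s t = 0 := by
            by_contra h4
            have := hK s t h4
            omega
          have e3 : bd F o X.X (W s) t y = 0 := by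
            apply bd_zero
            intro v hv
            by_contra h4
            have h5 := (hW0 _ _ h4).2.1
            rw [card_insert_of_notMem hv] at h5
            omega
          rw [e2, e3]
          simp
      · have e2 : z s t = 0 := by
          by_contra h4
          exact hst (hz.1 s t h4).1
        rw [e2, dT_apply, if_neg hst]
        simp)
    refine ⟨x, hx, w' + W, add_mem hw' hWm, ?_⟩
    rw [map_add, ← add_assoc, ← h3, sub_add_cancel]

end

end Pool.LU.Dua
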