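import Pool.Agent.H22.LU.DuaD

/-!
Project LU, part C, duality: ranks.
-/

set_option autoImplicit false
set_option linter.unusedSectionVars false

open scoped BigOperators
open Finset Module

noncomputable section

namespace Pool.LU.Dua

theorem rank_null {F S : Type} [Field F] [AddCommGroup S] [Module F S] [FiniteDimensional F S]
    (e : S →ₗ[F] S) (A : Submodule F S) :
    finrank F ↥(A ⊓ LinearMap.ker e) + finrank F ↥(A.map e) = finrank F A := by
  have h1 := LinearMap.finrank_range_add_finrank_ker (e.domRestrict A)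
  have h2 : LinearMap.range (e.domRestrict A) = A.map e := LinearMap.range_domRestrict _ _
  have h3 : finrank F (LinearMap.ker (e.domRestrict A)) = finrank F ↥(A ⊓ LinearMap.ker e) := by
    have h4 : (LinearMap.ker (e.domRestrict A)).map A.subtype = A ⊓ LinearMap.ker e := by
      ext x
      constructor
      · rintro ⟨⟨x, hx⟩, hx', rfl⟩
        exact ⟨hx, hx'⟩
      · rintro ⟨hx, hx'⟩
        exact ⟨⟨x, hx⟩, hx', rfl⟩
    rw [← h4]
    exact (finrank_map_inj A.subtype _ fun x _ hx => Subtype.ext hx).symm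
  rw [h2, h3] at h1
  omega

section

variable {V : Type} [Fintype V] [DecidableEq V] {adj : V → V → Prop} (X : XSet V adj)
  (F : Type) [Field F] (o : V → ℕ)

/-- the product of all signs -/
def kap (y : X.X) : F := ∏ v : V, ((X.χ v y : ℤ) : F)

variable {F} {o}

theorem chi_sq (v : V) (y : X.X) : ((X.χ v y : ℤ) : F) * ((X.χ v y : ℤ) : F) = 1 := by
  rcases Int.units_eq_one_or (X.χ v y) with h | h <;> rw [h] <;> simp

theorem kap_sq (y : X.X) : kap X F y * kap X F y = 1 := by
  unfold kap
  rw [← prod_mul_distrib]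
  exact prod_eq_one fun v _ => chi_sq X v y

theorem kap_rho (v : V) (y : X.X) : kap X F (X.ρ v y) = - kap X F y := by
  unfold kap
  rw [← mul_prod_erase univ _ (mem_univ v), ← mul_prod_erase univ (fun v => ((X.χ v y : ℤ) : F))
    (mem_univ v), X.χ_self]
  have : ∏ u ∈ univ.erase v, ((X.χ u (X.ρ v y) : ℤ) : F) = ∏ u ∈ univ.erase v, ((X.χ u y : ℤ) : F) :=
    prod_congr rfl fun u hu => by rw [X.χ_ne u v (ne_of_mem_erase hu)]
  rw [this]
  push_cast [Units.val_neg]
  ring

/-- sums over the set are invariant under the involutions -/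
theorem sum_rho (v : V) (f : X.X → F) : ∑ y, f (X.ρ v y) = ∑ y, f y := by
  let e : X.X ≃ X.X := ⟨X.ρ v, X.ρ v, X.ρρ v, X.ρρ v⟩
  exact Equiv.sum_comp e f

variable (F) in
/-- the pairing -/
def pair : (Finset V → X.X → F) →ₗ[F] (Finset V → X.X → F) →ₗ[F] F :=
  LinearMap.mk₂ F (fun x g => ∑ s, ∑ y, kap X F y * (x s y * g s y))
    (by
      intro x x' g
      simp only [Pi.add_apply, add_mul, mul_add, sum_add_distrib])
    (by
      intro c x g
      simp only [Pi.smul_apply, smul_eq_mul, mul_sum]
      refine sum_congr rfl fun s _ => sum_congr rfl fun y _ => ?_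
      ring)
    (by
      intro x g g'
      simp only [Pi.add_apply, mul_add, sum_add_distrib])
    (by
      intro c x g
      simp only [Pi.smul_apply, smul_eq_mul, mul_sum]
      refine sum_congr rfl fun s _ => sum_congr rfl fun y _ => ?_
      ring)

theorem pair_apply (x g : Finset V → X.X → F) :
    pair X F x g = ∑ s, ∑ y, kap X F y * (x s y * g s y) := rfl

theorem reindex (f : V → Finset V → Finset V → F) :
    ∑ τ : Finset V, ∑ v ∈ univ \ τ, f v τ (insert v τ) =
      ∑ s : Finset V, ∑ v ∈ s, f v (s.erase v) s := by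
  have h1 : ∑ τ : Finset V, ∑ v ∈ univ \ τ, f v τ (insert v τ) =
      ∑ v : V, ∑ τ ∈ univ.filter (fun τ : Finset V => v ∉ τ), f v τ (insert v τ) := by
    apply sum_comm'
    intro τ v
    simp
  have h2 : ∑ s : Finset V, ∑ v ∈ s, f v (s.erase v) s =
      ∑ v : V, ∑ s ∈ univ.filter (fun s : Finset V => v ∈ s), f v (s.erase v) s := by
    apply sum_comm'
    intro τ v
    simp
  rw [h1, h2]
  refine sum_congr rfl fun v _ => ?_
  refine sum_bij' (fun τ _ => insert v τ) (fun s _ => s.erase v) ?_ ?_ ?_ ?_ ?_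
  · intro τ _
    simp
  · intro s _
    simp
  · intro τ hτ
    exact erase_insert (mem_filter.1 hτ).2
  · intro s hs
    exact insert_erase (mem_filter.1 hs).2
  · intro τ hτ
    rw [erase_insert (mem_filter.1 hτ).2]

theorem bd_mem (k : ℕ) (x : Finset V → X.X → F) (hx : x ∈ Ch F adj X.ρ Set.univ (k + 1)) :
    bd F o X.X x ∈ Ch F adj X.ρ Set.univ k := by
  obtain ⟨h1, h2⟩ := hx
  refine ⟨fun s hs => ?_, fun s v hv y => ?_⟩
  · have h3 : ∃ v, v ∉ s ∧ x (insert v s) ≠ 0 := by
      by_contra h3
      push Not at h3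
      apply hs
      funext y
      exact bd_zero X x s h3 y
    obtain ⟨v, hv, h3⟩ := h3
    obtain ⟨h4, _, h5⟩ := h1 _ h3
    rw [card_insert_of_notMem hv] at h4
    exact ⟨by omega, fun v _ => Set.mem_univ v, Clq.mono h5 (subset_insert _ _)⟩
  · rw [bd_apply, bd_apply, ← sum_neg_distrib]
    refine sum_congr rfl fun u _ => ?_
    rw [h2 _ v (mem_insert_of_mem hv)]
    ring

/-- adjunction -/
theorem pair_adj (k : ℕ) (x g : Finset V → X.X → F)
    (hx : x ∈ Ch F adj X.ρ Set.univ (k + 1)) :
    pair X F x (dlt X F o g) = 2 * pair X F (bd F o X.X x) g := by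
  classical
  obtain ⟨h1, h2⟩ := hx
  have e1 : pair X F x (dlt X F o g) = ∑ s : Finset V, ∑ v ∈ s, (sg o v (s.erase v) : F) *
      (∑ y, 2 * (kap X F y * (x s y * g (s.erase v) y))) := by
    rw [pair_apply]
    refine sum_congr rfl fun s _ => ?_
    by_cases hs : Clq adj s
    · have e2 : ∀ y, kap X F y * (x s y * dlt X F o g s y) = ∑ v ∈ s,
          (sg o v (s.erase v) : F) * (kap X F y * (x s y * g (s.erase v) y) +
          kap X F y * (x s y * g (s.erase v) (X.ρ v y))) := by
        intro y
        rw [dlt_apply, if_pos hs]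
        unfold del
        rw [mul_sum, mul_sum]
        refine sum_congr rfl fun v _ => ?_
        ring
      rw [sum_congr rfl fun y _ => e2 y, sum_comm]
      refine sum_congr rfl fun v hv => ?_
      rw [← mul_sum, sum_add_distrib]
      have e3 : ∑ y, kap X F y * (x s y * g (s.erase v) (X.ρ v y)) =
          ∑ y, kap X F y * (x s y * g (s.erase v) y) := by
        rw [← sum_rho X v]
        refine sum_congr rfl fun y _ => ?_
        rw [X.ρρ, kap_rho, h2 s v hv]
        ring
      rw [e3, ← two_mul, mul_sum]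
    · have e2 : x s = 0 := by
        by_contra h3
        exact hs (h1 s h3).2.2
      rw [e2]
      simp
  have e2 : pair X F (bd F o X.X x) g = ∑ τ : Finset V, ∑ v ∈ univ \ τ, (sg o v τ : F) *
      ∑ y, kap X F y * (x (insert v τ) y * g τ y) := by
    rw [pair_apply]
    refine sum_congr rfl fun τ _ => ?_
    have e3 : ∀ y, kap X F y * (bd F o X.X x τ y * g τ y) = ∑ v ∈ univ \ τ, (sg o v τ : F) *
        (kap X F y * (x (insert v τ) y * g τ y)) := by
      intro y
      rw [bd_apply, sum_mul, mul_sum]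
      refine sum_congr rfl fun v _ => ?_
      ring
    rw [sum_congr rfl fun y _ => e3 y, sum_comm]
    refine sum_congr rfl fun v _ => ?_
    rw [mul_sum]
  rw [e1, e2, reindex (fun v τ s => (sg o v τ : F) * ∑ y, kap X F y * (x s y * g τ y)), mul_sum]
  refine sum_congr rfl fun s _ => ?_
  rw [mul_sum]
  refine sum_congr rfl fun v _ => ?_
  rw [← mul_sum]
  ring

/-- antisymmetric functions are dual to themselves -/
theorem nondeg (h2 : (2 : F) ≠ 0) (σ : Finset V) (hσ : Clq adj σ) (f : X.X → F) (hf : f ≠ 0)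
    (hs : ∀ v ∈ σ, ∀ y, f (X.ρ v y) = - f y) :
    ∃ g : X.X → F, (∀ v ∈ σ, ∀ y, g (X.ρ v y) = - g y) ∧ ∑ y, f y * g y ≠ 0 := by
  classical
  induction σ using Finset.induction_on with
  | empty =>
    obtain ⟨y0, hy0⟩ : ∃ y, f y ≠ 0 := by
      by_contra h
      push Not at h
      exact hf (funext h)
    refine ⟨Pi.single y0 1, fun v hv => absurd hv (notMem_empty v), ?_⟩
    rw [sum_eq_single y0]
    · simpa using hy0
    · intro y _ hy
      rw [Pi.single_eq_of_ne hy, mul_zero]
    · intro h
      exact absurd (mem_univ _) h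
  | insert v σ hv ih =>
    obtain ⟨g, hg, hg'⟩ := ih (Clq.mono hσ (subset_insert _ _)) fun u hu => hs u (mem_insert_of_mem hu)
    refine ⟨fun y => g y - g (X.ρ v y), fun u hu y => ?_, ?_⟩
    · rcases mem_insert.1 hu with rfl | hu
      · show g (X.ρ u y) - g (X.ρ u (X.ρ u y)) = - (g y - g (X.ρ u y))
        rw [X.ρρ]
        ring
      · have huv : v ≠ u := fun h => hv (h ▸ hu)
        show g (X.ρ u y) - g (X.ρ v (X.ρ u y)) = - (g y - g (X.ρ v y))
        rw [X.comm v u (hσ v (mem_insert_self _ _) u (mem_insert_of_mem hu) huv), hg u hu, hg u hu]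
        ring
    · have e1 : ∑ y, f y * (g y - g (X.ρ v y)) = 2 * ∑ y, f y * g y := by
        have e2 : ∑ y, f y * g (X.ρ v y) = - ∑ y, f y * g y := by
          rw [← sum_rho X v, ← sum_neg_distrib]
          refine sum_congr rfl fun y _ => ?_
          rw [X.ρρ, hs v (mem_insert_self _ _)]
          ring
        simp only [mul_sub]
        rw [sum_sub_distrib, e2]
        ring
      rw [e1]
      exact mul_ne_zero h2 hg'

theorem pair_single (σ : Finset V) (f : X.X → F) (g : Finset V → X.X → F) :
    pair X F (Pi.single σ f) g = ∑ y, kap X F y * (f y * g σ y) := by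
  rw [pair_apply, sum_eq_single σ]
  · rw [Pi.single_eq_same]
  · intro s _ hs
    rw [Pi.single_eq_of_ne hs]
    simp
  · intro h
    exact absurd (mem_univ _) h

theorem pair_single' (σ : Finset V) (f : X.X → F) (g : Finset V → X.X → F) :
    pair X F g (Pi.single σ f) = ∑ y, kap X F y * (g σ y * f y) := by
  rw [pair_apply, sum_eq_single σ]
  · rw [Pi.single_eq_same]
  · intro s _ hs
    rw [Pi.single_eq_of_ne hs]
    simp
  · intro h
    exact absurd (mem_univ _) h

theorem nd1 (h2 : (2 : F) ≠ 0) (n k j : ℕ) (h : k + j = n) (a : Finset V → X.X → F)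
    (ha : a ∈ Ch F adj X.ρ Set.univ k) (h0 : ∀ g ∈ Dc X F n j, pair X F a g = 0) : a = 0 := by
  by_contra hne
  obtain ⟨σ, hσ⟩ : ∃ σ, a σ ≠ 0 := by
    by_contra h3
    push Not at h3
    exact hne (funext h3)
  obtain ⟨h3, _, h4⟩ := ha.1 σ hσ
  obtain ⟨g, hg, hg'⟩ := nondeg X h2 σ h4 (a σ) hσ (ha.2 σ)
  apply hg'
  have h5 := h0 (Pi.single σ fun y => kap X F y * g y) ⟨fun s hs => ?_, fun s v hv y => ?_⟩
  · rw [pair_single'] at h5
    rw [← h5]
    refine sum_congr rfl fun y _ => ?_
    have := kap_sq X (F := F) y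
    have e : kap X F y * (a σ y * (kap X F y * g y)) = (kap X F y * kap X F y) * (a σ y * g y) := by
      ring
    rw [e, this, one_mul]
  · have : s = σ := by
      by_contra h6
      exact hs (Pi.single_eq_of_ne h6 _)
    subst this
    exact ⟨by omega, h4⟩
  · by_cases hs : s = σ
    · subst hs
      rw [Pi.single_eq_same, kap_rho, hg v hv]
      ring
    · rw [Pi.single_eq_of_ne hs]
      rfl

theorem nd2 (h2 : (2 : F) ≠ 0) (n k j : ℕ) (h : k + j = n) (a : Finset V → X.X → F)
    (ha : a ∈ Dc X F n j) (h0 : ∀ g ∈ Ch F adj X.ρ Set.univ k, pair X F g a = 0) : a = 0 := by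
  by_contra hne
  obtain ⟨σ, hσ⟩ : ∃ σ, a σ ≠ 0 := by
    by_contra h3
    push Not at h3
    exact hne (funext h3)
  obtain ⟨h3, h4⟩ := ha.1 σ hσ
  obtain ⟨g, hg, hg'⟩ := nondeg X h2 σ h4 (fun y => kap X F y * a σ y) (by
    intro h5
    apply hσ
    funext y
    have h6 := congrFun h5 y
    have h7 := kap_sq X (F := F) y
    have h8 : kap X F y ≠ 0 := by
      intro h9
      rw [h9, zero_mul] at h7
      exact zero_ne_one h7
    exact (mul_eq_zero.1 h6).resolve_left h8) (by
    intro v hv y
    show kap X F (X.ρ v y) * a σ (X.ρ v y) = - (kap X F y * a σ y)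
    rw [kap_rho, ha.2 σ v hv]
    ring)
  apply hg'
  have h5 := h0 (Pi.single σ g) ⟨fun s hs => ?_, fun s v hv y => ?_⟩
  · rw [pair_single] at h5
    rw [← h5]
    refine sum_congr rfl fun y _ => ?_
    ring
  · have : s = σ := by
      by_contra h6
      exact hs (Pi.single_eq_of_ne h6 _)
    subst this
    exact ⟨by omega, fun v _ => Set.mem_univ v, h4⟩
  · by_cases hs : s = σ
    · subst hs
      rw [Pi.single_eq_same]
      exact hg v hv y
    · rw [Pi.single_eq_of_ne hs]
      simp

theorem rank_eq (h2 : (2 : F) ≠ 0) (n k j : ℕ) (h : k + (j + 1) = n) :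
    finrank F ↥((Ch F adj X.ρ Set.univ (k + 1)).map (bd F o X.X)) =
      finrank F ↥((Dc X F n (j + 1)).map (dlt X F o)) := by
  apply le_antisymm
  · refine rkle (bd F o X.X) (dlt X F o) (pair X F) _ (Ch F adj X.ρ Set.univ k) _ (2 : F)⁻¹
      (fun x hx => bd_mem X k x hx) (fun x hx g _ => ?_) (fun a ha h0 => nd1 X h2 n k (j + 1) h a ha h0)
    rw [pair_adj X k x g hx, ← mul_assoc, inv_mul_cancel₀ h2, one_mul]
  · refine rkle (dlt X F o) (bd F o X.X) (pair X F).flip _ (Dc X F n j) _ (2 : F)
      (fun x hx => dlt_mem X n j x hx) (fun x _ g hg => ?_)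
      (fun a ha h0 => nd2 X h2 n (k + 1) j (by omega) a ha h0)
    rw [LinearMap.flip_apply, LinearMap.flip_apply, pair_adj X k g x hg]

theorem dim_eq (n k j : ℕ) (h : k + j = n) :
    finrank F ↥(Ch F adj X.ρ Set.univ k) = finrank F ↥(Dc X F n j) := by
  let m : (Finset V → X.X → F) →ₗ[F] (Finset V → X.X → F) :=
    { toFun := fun x s y => kap X F y * x s y
      map_add' := fun x x' => by
        funext s y
        simp only [Pi.add_apply, mul_add]
      map_smul' := fun c x => by
        funext s y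
        simp only [Pi.smul_apply, smul_eq_mul, RingHom.id_apply]
        ring }
  have hm : ∀ x s y, m x s y = kap X F y * x s y := fun x s y => rfl
  have hmm : ∀ x, m (m x) = x := by
    intro x
    funext s y
    rw [hm, hm, ← mul_assoc, kap_sq, one_mul]
  have hm0 : ∀ x s, m x s ≠ 0 → x s ≠ 0 := by
    intro x s hx hx'
    apply hx
    funext y
    rw [hm, hx']
    simp
  have h1 : (Ch F adj X.ρ Set.univ k).map m = Dc X F n j := by
    apply le_antisymm
    · rintro _ ⟨x, ⟨h1, h2⟩, rfl⟩
      refine ⟨fun s hs => ?_, fun s v hv y => ?_⟩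
      · obtain ⟨h3, _, h4⟩ := h1 s (hm0 x s hs)
        exact ⟨by omega, h4⟩
      · rw [hm, hm, kap_rho, h2 s v hv]
        ring
    · rintro x ⟨h1, h2⟩
      refine ⟨m x, ⟨fun s hs => ?_, fun s v hv y => ?_⟩, hmm x⟩
      · obtain ⟨h3, h4⟩ := h1 s (hm0 x s hs)
        exact ⟨by omega, fun v _ => Set.mem_univ v, h4⟩
      · rw [hm, hm, kap_rho, h2 s v hv]
        ring
  rw [← h1]
  exact (finrank_map_inj m _ fun x _ hx => by rw [← hmm x, hx, map_zero]).symm

/-- the homology of the chains is the homology of the total complex -/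
theorem hh_tot (ho : Function.Injective o) (h2 : (2 : F) ≠ 0) (a : ℕ) :
    finrank F ↥(Tot X F a ⊓ LinearMap.ker (dT X F o)) -
      finrank F ↥((Tot X F (a + 1)).map (dT X F o)) = hh F o X Set.univ a := by
  have hcard : ∀ j, ∀ z ∈ Tot X F j, ∀ s t, z s t ≠ 0 → s.card ≤ Fintype.card V :=
    fun j z _ s t _ => card_le_univ s
  refine qi (dT X F o) (bd F o X.X) (inC X F) (Tot X F a) (Tot X F (a + 1))
    (Ch F adj X.ρ Set.univ a) (Ch F adj X.ρ Set.univ (a + 1)) (fun x _ hx => inC_inj X x hx)
    (fun w hw => dT_dT X ho h2 _ w hw) (fun w hw => dT_mem X a w hw) (fun x hx => bd_mem X a x hx)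
    (fun x hx => inC_mem X a x hx) (fun x hx => inC_mem X (a + 1) x hx) ?_ ?_ ?_ ?_
  · intro x hx
    rw [dT_inC X a x hx]
    constructor
    · intro h
      rw [h, map_zero]
    · intro h
      exact inC_inj X _ h
  · intro x hx
    exact ⟨1, one_ne_zero, by rw [dT_inC X (a + 1) x hx, one_smul]⟩
  · intro z hz hz'
    exact totC X ho h2 a (Fintype.card V) z hz (fun s t _ => by rw [hz']; rfl) (hcard a z hz)
  · intro x hx w hw hxw
    obtain ⟨x', hx', w', hw', h3⟩ := totC X ho h2 (a + 1) (Fintype.card V) w hw (fun s t hs => by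
      rw [← hxw]
      funext y
      rw [inC_apply, if_neg hs]
      rfl) (hcard (a + 1) w hw)
    refine ⟨x', hx', ?_⟩
    have h4 : inC X F (x - bd F o X.X x') = 0 := by
      rw [map_sub, hxw, h3, map_add, dT_dT X ho h2 _ w' hw', add_zero, dT_inC X (a + 1) x' hx',
        sub_self]
    exact sub_eq_zero.1 (inC_inj X _ h4)

theorem inD_inj (n : ℕ) (ε : Finset V → ℤ)
    (hE : ExactS (Clq adj) n (sg o)) (hε : FundS (Clq adj) n (sg o) ε)
    (hn : ∀ t : Finset V, Clq adj t → t.card ≤ n) (g : Finset V → X.X → F)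
    (hg : ∀ s, g s ≠ 0 → Clq adj s) (h : inD X F ε g = 0) : g = 0 := by
  funext s y
  by_contra hne
  have hs : Clq adj s := hg s fun h3 => hne (by rw [h3]; rfl)
  obtain ⟨t, hst, ht, htn⟩ := pure' n hE hn n s hs (by omega)
  have h3 := congrFun (congrFun (congrFun h s) t) y
  rw [inD_apply, if_pos hst] at h3
  rcases hε.unit t ht htn with h4 | h4
  · rw [h4] at h3
    apply hne
    simpa using h3
  · rw [h4] at h3
    apply hne
    simpa using h3

/-- the homology of the dual complex is the homology of the total complex -/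
theorem hh_dual (ho : Function.Injective o) (h2 : (2 : F) ≠ 0) (n : ℕ) (ε : Finset V → ℤ)
    (hE : ExactS (Clq adj) n (sg o)) (hε : FundS (Clq adj) n (sg o) ε)
    (hn : ∀ t : Finset V, Clq adj t → t.card ≤ n) (a : ℕ) :
    finrank F ↥(Tot X F a ⊓ LinearMap.ker (dT X F o)) -
      finrank F ↥((Tot X F (a + 1)).map (dT X F o)) =
    finrank F ↥(Dc X F n a ⊓ LinearMap.ker (dlt X F o)) -
      finrank F ↥((Dc X F n (a + 1)).map (dlt X F o)) := by
  classical
  have hc : ((-1 : F) ^ n) ≠ 0 := pow_ne_zero _ (neg_ne_zero.2 one_ne_zero)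
  have hcc : ((-1 : F) ^ n) * ((-1 : F) ^ n) = 1 := by
    rw [← mul_pow, neg_mul_neg, one_mul, one_pow]
  have hinj := fun g hg h => inD_inj X (F := F) n ε hE hε hn g hg h
  have hdlt : ∀ g : Finset V → X.X → F, ∀ s, dlt X F o g s ≠ 0 → Clq adj s := by
    intro g s hs
    by_contra h3
    apply hs
    funext y
    rw [dlt_apply, if_neg h3]
    rfl
  have hdT := fun g => dT_inD X (F := F) n ε hε.supp hε.cyc g
  refine qi (dT X F o) (dlt X F o) (inD X F ε) (Tot X F a) (Tot X F (a + 1))
    (Dc X F n a) (Dc X F n (a + 1)) (fun x hx h => hinj x (fun s hs => (hx.1 s hs).2) h)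
    (fun w hw => dT_dT X ho h2 _ w hw) (fun w hw => dT_mem X a w hw)
    (fun x hx => dlt_mem X n a x hx) (fun x hx => inD_mem X n a ε hε.supp x hx)
    (fun x hx => inD_mem X n (a + 1) ε hε.supp x hx) ?_ ?_ ?_ ?_
  · intro x _
    rw [hdT]
    constructor
    · intro h
      rw [h, map_zero, smul_zero]
    · intro h
      have h3 : inD X F ε (dlt X F o x) = 0 := (smul_eq_zero.1 h).resolve_left hc
      exact hinj _ (hdlt x) h3
  · intro x _
    exact ⟨(-1 : F) ^ n, hc, hdT x⟩
  · intro z hz hz'
    exact totD X ho h2 n a ε hE hε hn n z hz (fun s t _ => by rw [hz']; rfl) (fun s t _ => by omega)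
  · intro x hx w hw hxw
    obtain ⟨x', hx', w', hw', h3⟩ := totD X ho h2 n (a + 1) ε hE hε hn n w hw (fun s t ht => by
      rw [← hxw]
      funext y
      rw [inD_apply]
      have h4 : ε t = 0 := by
        by_contra h4
        have := (hε.supp t h4).2
        omega
      rw [h4]
      simp) (fun s t _ => by omega)
    refine ⟨((-1 : F) ^ n) • x', Submodule.smul_mem _ _ hx', ?_⟩
    have h4 : inD X F ε (x - dlt X F o (((-1 : F) ^ n) • x')) = 0 := by
      rw [map_sub, hxw, h3, map_add, dT_dT X ho h2 _ w' hw', add_zero, hdT, map_smul, map_smul,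
        sub_self]
    refine sub_eq_zero.1 (hinj _ (fun s hs => ?_) h4)
    by_cases h5 : x s = 0
    · apply hdlt (((-1 : F) ^ n) • x') s
      intro h6
      apply hs
      rw [Pi.sub_apply, h5, h6, sub_zero]
    · exact (hx.1 s h5).2

theorem dua_core (ho : Function.Injective o) (h2 : (2 : F) ≠ 0) (n : ℕ) (ε : Finset V → ℤ)
    (hE : ExactS (Clq adj) n (sg o)) (hε : FundS (Clq adj) n (sg o) ε)
    (hn : ∀ t : Finset V, Clq adj t → t.card ≤ n) (a b : ℕ) (hab : a + b = n) :
    hh F o X Set.univ a = hh F o X Set.univ b := by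
  classical
  rw [← hh_tot X ho h2 a, hh_dual X ho h2 n ε hE hε hn a]
  unfold hh
  have h1 := rank_null (dlt X F o) (Dc X F n a)
  have h3 := rank_null (bd F o X.X) (Ch F adj X.ρ Set.univ b)
  have h4 := dim_eq X (F := F) n b a (by omega)
  have h5 : finrank F ↥((Ch F adj X.ρ Set.univ (b + 1)).map (bd F o X.X)) =
      finrank F ↥((Dc X F n a).map (dlt X F o)) := by
    rcases Nat.eq_zero_or_pos a with ha | ha
    · subst ha
      have e1 : (Ch F adj X.ρ Set.univ (b + 1)).map (bd F o X.X) = ⊥ := by
        rw [eq_bot_iff]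
        rintro _ ⟨x, hx, rfl⟩
        have : x = 0 := by
          funext s
          by_contra h6
          obtain ⟨h7, _, h8⟩ := hx.1 s h6
          have := hn s h8
          omega
        rw [this, map_zero]
        exact Submodule.zero_mem _
      have e2 : (Dc X F n 0).map (dlt X F o) = ⊥ := by
        rw [eq_bot_iff]
        rintro _ ⟨x, hx, rfl⟩
        have : dlt X F o x = 0 := by
          funext s y
          rw [dlt_apply]
          split_ifs with h6
          · apply del_zero
            intro v hv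
            by_contra h7
            have h8 := (hx.1 _ h7).1
            have h9 := card_erase_add_one hv
            have := hn s h6
            omega
          · rfl
        rw [this]
        exact Submodule.zero_mem _
      rw [e1, e2, finrank_bot]
    · obtain ⟨j, rfl⟩ : ∃ j, a = j + 1 := ⟨a - 1, by omega⟩
      exact rank_eq X h2 n b j (by omega)
  have h6 : finrank F ↥((Ch F adj X.ρ Set.univ b).map (bd F o X.X)) =
      finrank F ↥((Dc X F n (a + 1)).map (dlt X F o)) := by
    rcases Nat.eq_zero_or_pos b with hb | hb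
    · subst hb
      have e1 : (Ch F adj X.ρ Set.univ 0).map (bd F o X.X) = ⊥ := by
        rw [eq_bot_iff]
        rintro _ ⟨x, hx, rfl⟩
        have : bd F o X.X x = 0 := by
          funext s y
          apply bd_zero
          intro v _
          by_contra h7
          have h8 := (hx.1 _ h7).1
          exact insert_ne_empty v s (card_eq_zero.1 h8)
        rw [this]
        exact Submodule.zero_mem _
      have e2 : (Dc X F n (a + 1)).map (dlt X F o) = ⊥ := by
        rw [eq_bot_iff]
        rintro _ ⟨x, hx, rfl⟩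
        have : x = 0 := by
          funext s
          by_contra h7
          have := (hx.1 s h7).1
          omega
        rw [this, map_zero]
        exact Submodule.zero_mem _
      rw [e1, e2, finrank_bot]
    · obtain ⟨k, rfl⟩ : ∃ k, b = k + 1 := ⟨b - 1, by omega⟩
      exact rank_eq X h2 n k a (by omega)
  omega

end

end Pool.LU.Dua
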