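import Pool.Agent.H81.LU.YStmts
import Pool.Agent.H3.LU.Uni

/-!
Project LU, part Y, module HGT: existence of the height function.
-/

set_option autoImplicit false

open scoped BigOperators
open Pool.H3.L2

noncomputable section

namespace Pool.LU

section

variable {V : Type} [Fintype V] [DecidableEq V] {adj : V → V → Prop} {W : Type} [Group W]

theorem cc_mul (R : RA V adj W) {n : ℕ} (κ : V → Fin n) (c : Fin n) (x y : W) :
    cc R κ c (x * y) = cc R κ c x * cc R κ c y := by
  unfold cc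
  rw [← Finset.prod_mul_distrib]
  exact Finset.prod_congr rfl fun v _ => by rw [map_mul, Pi.mul_apply]

theorem cc_one (R : RA V adj W) {n : ℕ} (κ : V → Fin n) (c : Fin n) :
    cc R κ c 1 = 1 := by
  unfold cc
  exact Finset.prod_eq_one fun v _ => by rw [map_one, Pi.one_apply]

theorem cc_s (R : RA V adj W) {n : ℕ} (κ : V → Fin n) (c : Fin n) (u : V) :
    cc R κ c (R.s u) = if c = κ u then -1 else 1 := by
  unfold cc
  rw [R.χ_s, Finset.prod_pi_mulSingle']
  by_cases h : c = κ u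
  · subst h
    simp
  · have h' : ¬ κ u = c := fun h1 => h h1.symm
    simp [h, h']

theorem cc_self (R : RA V adj W) {n : ℕ} (κ : V → Fin n) (u : V) (w : W) :
    cc R κ (κ u) (w * R.s u) = - cc R κ (κ u) w := by
  rw [cc_mul, cc_s, if_pos rfl, mul_neg, mul_one]

theorem cc_ne (R : RA V adj W) {n : ℕ} (κ : V → Fin n) (c : Fin n) (u : V) (w : W) (h : c ≠ κ u) :
    cc R κ c (w * R.s u) = cc R κ c w := by
  rw [cc_mul, cc_s, if_neg h, mul_one]

/-- the permutation of `W × ℤ` -/
def hgtP (R : RA V adj W) {n : ℕ} (κ : V → Fin n) (s : V → ℤˣ) (v : V) : Equiv.Perm (W × ℤ) :=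
  Function.Involutive.toPerm (fun p => (p.1 * R.s v, p.2 + ((s v * cc R κ (κ v) p.1 : ℤˣ) : ℤ)))
    (fun p => by
      refine Prod.ext ?_ ?_
      · show p.1 * R.s v * R.s v = p.1
        rw [mul_assoc, R.s_sq, mul_one]
      · show p.2 + ((s v * cc R κ (κ v) p.1 : ℤˣ) : ℤ) +
          ((s v * cc R κ (κ v) (p.1 * R.s v) : ℤˣ) : ℤ) = p.2
        rw [cc_self, mul_neg, Units.val_neg]
        ring)

theorem hgtP_apply (R : RA V adj W) {n : ℕ} (κ : V → Fin n) (s : V → ℤˣ) (v : V) (p : W × ℤ) :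
    hgtP R κ s v p = (p.1 * R.s v, p.2 + ((s v * cc R κ (κ v) p.1 : ℤˣ) : ℤ)) := rfl

end

theorem hgt : HGTStmt := by
  intro V _ _ adj hs W _ R n κ s hκ
  obtain ⟨f, hf⟩ := uni V adj hs W R (Equiv.Perm (W × ℤ)) (hgtP R κ s)
    (fun v => by
      ext1 p
      rw [Equiv.Perm.mul_apply]
      exact (Function.Involutive.toPerm_involutive _) p)
    (fun u v h => by
      ext1 p
      rw [Equiv.Perm.mul_apply, Equiv.Perm.mul_apply, hgtP_apply, hgtP_apply, hgtP_apply,
        hgtP_apply]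
      refine Prod.ext ?_ ?_
      · show p.1 * R.s v * R.s u = p.1 * R.s u * R.s v
        rw [mul_assoc, mul_assoc, R.s_comm u v h]
      · show p.2 + _ + _ = p.2 + _ + _
        simp only
        rw [cc_ne R κ _ v _ (hκ u v h), cc_ne R κ _ u _ (hκ u v h).symm]
        ring)
  have hfst : ∀ w : W, ∀ p : W × ℤ, ((f w)⁻¹ p).1 = p.1 * w := by
    intro w
    have hw : w ∈ Subgroup.closure (Set.range R.s) := by rw [R.gen]; trivial
    induction hw using Subgroup.closure_induction with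
    | mem x hx =>
      obtain ⟨v, rfl⟩ := hx
      intro p
      rw [hf v]
      have h1 : (hgtP R κ s v)⁻¹ = hgtP R κ s v := rfl
      rw [h1, hgtP_apply]
    | one => intro p; rw [map_one, inv_one, mul_one]; rfl
    | mul x y _ _ hx hy =>
      intro p
      rw [map_mul, mul_inv_rev, Equiv.Perm.mul_apply, hy, hx, mul_assoc]
    | inv x _ hx =>
      intro p
      have h1 := hx ((f x) p)
      have h2 : (f x)⁻¹ ((f x) p) = p := by
        rw [← Equiv.Perm.mul_apply, inv_mul_cancel]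
        rfl
      rw [h2] at h1
      rw [map_inv, inv_inv, h1, mul_assoc, mul_inv_cancel, mul_one]
  refine ⟨fun w => ((f w)⁻¹ (1, 0)).2, ?_, fun w v => ?_⟩
  · show ((f 1)⁻¹ (1, 0)).2 = 0
    rw [map_one, inv_one]
    rfl
  · show ((f (w * R.s v))⁻¹ (1, 0)).2 = ((f w)⁻¹ (1, 0)).2 + _
    rw [map_mul, mul_inv_rev, Equiv.Perm.mul_apply, hf v]
    have h1 : (hgtP R κ s v)⁻¹ = hgtP R κ s v := rfl
    rw [h1, hgtP_apply, hfst w (1, 0), one_mul]

end Pool.LU
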