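import Pool.Agent.H22.LU.HGT

/-!
Project LU, part Y, module NST: the finite set `N \ W` with heights modulo `d`, and its cyclic
covers.
-/

set_option autoImplicit false

open scoped BigOperators
open Pool.H3.L2

noncomputable section

namespace Pool.LU

section

variable {V : Type} [Fintype V] [DecidableEq V] {adj : V → V → Prop} {W : Type} [Group W]
  {R : RA V adj W} {n : ℕ} {κ : V → Fin n} {s : V → ℤˣ} {h : W → ℤ}

theorem cc_congr (κ : V → Fin n) (c : Fin n) {x y : W} (hxy : R.χ x = R.χ y) :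
    cc R κ c x = cc R κ c y := by
  unfold cc
  rw [hxy]

theorem ht_add (hh : IsHt R κ s h) {x : W} (hx : R.χ x = 1) (w : W) : h (x * w) = h x + h w := by
  have hw : w ∈ Subgroup.closure (Set.range R.s) := by rw [R.gen]; trivial
  have hc : ∀ (y : W) (c : Fin n), cc R κ c (x * y) = cc R κ c y := fun y c =>
    cc_congr κ c (by rw [map_mul, hx, one_mul])
  have hs : ∀ v, (R.s v)⁻¹ = R.s v := fun v => inv_eq_of_mul_eq_one_right (R.s_sq v)
  have step : ∀ (y : W) (v : V), h (x * y) = h x + h y → h (x * (y * R.s v)) =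
      h x + h (y * R.s v) := by
    intro y v hy
    rw [← mul_assoc, hh.step, hh.step, hc, hy, add_assoc]
  induction hw using Subgroup.closure_induction_right with
  | one => rw [mul_one, hh.one, add_zero]
  | mul_right y _ z hz ih =>
    obtain ⟨v, rfl⟩ := hz
    exact step y v ih
  | mul_inv_cancel y _ z hz ih =>
    obtain ⟨v, rfl⟩ := hz
    rw [hs]
    exact step y v ih

theorem ht_inv (hh : IsHt R κ s h) {x : W} (hx : R.χ x = 1) : h x⁻¹ = - h x := by
  have h1 := ht_add hh hx x⁻¹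
  rw [mul_inv_cancel, hh.one] at h1
  linarith

/-- the height as a homomorphism on the kernel of `χ` -/
def htHom (hh : IsHt R κ s h) (N : ℕ) : R.χ.ker →* Multiplicative (ZMod N) where
  toFun x := Multiplicative.ofAdd ((h x.1 : ℤ) : ZMod N)
  map_one' := by
    show Multiplicative.ofAdd ((h 1 : ℤ) : ZMod N) = 1
    rw [hh.one, Int.cast_zero, ofAdd_zero]
  map_mul' x y := by
    show Multiplicative.ofAdd ((h (x.1 * y.1) : ℤ) : ZMod N) = _
    rw [ht_add hh x.2, Int.cast_add, ofAdd_add]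

theorem mem_htHom (hh : IsHt R κ s h) (N : ℕ) (x : R.χ.ker) :
    x ∈ (htHom hh N).ker ↔ (N : ℤ) ∣ h x.1 := by
  rw [MonoidHom.mem_ker]
  show Multiplicative.ofAdd ((h x.1 : ℤ) : ZMod N) = 1 ↔ _
  rw [← CharP.intCast_eq_zero_iff (ZMod N) N, ← ofAdd_zero]
  exact Multiplicative.ofAdd.injective.eq_iff

theorem ht_pow (hh : IsHt R κ s h) {x : W} (hx : R.χ x = 1) (k : ℕ) : h (x ^ k) = k * h x := by
  induction k with
  | zero => rw [pow_zero, hh.one]; simp
  | succ k ih =>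
    rw [pow_succ, ht_add hh (by rw [map_pow, hx, one_pow]), ih]
    push_cast
    ring

theorem ht_zpow (hh : IsHt R κ s h) {x : W} (hx : R.χ x = 1) (k : ℤ) : h (x ^ k) = k * h x := by
  obtain ⟨k, rfl | rfl⟩ := k.eq_nat_or_neg
  · rw [zpow_natCast, ht_pow hh hx]
  · rw [zpow_neg, zpow_natCast, ht_inv hh (by rw [map_pow, hx, one_pow]), ht_pow hh hx]
    ring

/-- an element with nonzero height -/
theorem ht_ne (hh : IsHt R κ s h) {u v : V} (huv : κ u = κ v) (hs : s u ≠ s v) :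
    ∃ x : W, R.χ x = 1 ∧ h x ≠ 0 := by
  have hc : ∀ (w : W), cc R κ (κ v) (w * R.s u) = - cc R κ (κ v) w := fun w => by
    rw [← huv]
    exact cc_self R κ u w
  refine ⟨1 * R.s u * R.s v * R.s u * R.s v, ?_, ?_⟩
  · have h1 : ∀ v, R.χ (R.s v) * R.χ (R.s v) = 1 := fun v => by
      rw [← map_mul, R.s_sq, map_one]
    have h2 : R.χ (1 * R.s u * R.s v * R.s u * R.s v) = (R.χ (R.s u) * R.χ (R.s u)) *
        (R.χ (R.s v) * R.χ (R.s v)) := by
      simp only [map_mul, map_one]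
      rw [one_mul, mul_assoc (R.χ (R.s u)), mul_comm (R.χ (R.s v)) (R.χ (R.s u))]
      simp only [mul_assoc]
    rw [h2, h1, h1, one_mul]
  · simp only [hh.step, hh.one, huv, hc, cc_self, cc_one]
    rcases Int.units_eq_one_or (s u) with h1 | h1 <;> rcases Int.units_eq_one_or (s v) with h2 | h2
    · exact absurd (h1.trans h2.symm) hs
    · rw [h1, h2]; decide
    · rw [h1, h2]; decide
    · exact absurd (h1.trans h2.symm) hs

/-- the generator of the heights of the elements of `K` -/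
theorem exists_d (hh : IsHt R κ s h) (hne : ∃ x : W, R.χ x = 1 ∧ h x ≠ 0) (K : Subgroup R.χ.ker)
    [K.FiniteIndex] : ∃ d : ℕ, 0 < d ∧ (∀ x ∈ K, (d : ℤ) ∣ h x.1) ∧ ∃ x ∈ K, h x.1 = d := by
  let A : AddSubgroup ℤ :=
    { carrier := {z | ∃ x ∈ K, h x.1 = z}
      zero_mem' := ⟨1, one_mem K, hh.one⟩
      add_mem' := by
        rintro _ _ ⟨x, hx, rfl⟩ ⟨y, hy, rfl⟩
        exact ⟨x * y, mul_mem hx hy, ht_add hh x.2 _⟩
      neg_mem' := by
        rintro _ ⟨x, hx, rfl⟩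
        exact ⟨x⁻¹, inv_mem hx, ht_inv hh x.2⟩ }
  obtain ⟨a, ha⟩ := Int.subgroup_cyclic A
  rw [← AddSubgroup.zmultiples_eq_closure] at ha
  have hA : ∀ z : ℤ, (∃ x ∈ K, h x.1 = z) ↔ a ∣ z := by
    intro z
    have h1 : z ∈ A ↔ z ∈ AddSubgroup.zmultiples a := by rw [ha]
    rw [Int.mem_zmultiples_iff] at h1
    exact h1
  refine ⟨a.natAbs, ?_, fun x hx => ?_, ?_⟩
  · rw [Nat.pos_iff_ne_zero, Int.natAbs_ne_zero]
    rintro rfl
    obtain ⟨x, hx, hx0⟩ := hne
    obtain ⟨k, hk, -, hk2⟩ := Subgroup.exists_pow_mem_of_index_ne_zero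
      (Subgroup.FiniteIndex.index_ne_zero (H := K)) (⟨x, hx⟩ : R.χ.ker)
    have h1 := (hA (h (x ^ k))).1 ⟨_, hk2, rfl⟩
    rw [zero_dvd_iff, ht_pow hh hx] at h1
    rcases mul_eq_zero.1 h1 with h2 | h2
    · exact absurd (by exact_mod_cast h2) hk.ne'
    · exact hx0 h2
  · rw [Int.natAbs_dvd]
    exact (hA _).1 ⟨x, hx, rfl⟩
  · exact (hA _).2 (Int.dvd_natAbs.2 dvd_rfl)

omit [DecidableEq V] in
theorem stA_mem {b : Fin n → ℤˣ} {v : V} : v ∈ stA κ s b ↔ s v * b (κ v) = -1 := by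
  unfold stA
  simp

variable (R κ h) in
/-- the signs of the colours on `N \ W` -/
def nsCol (N : Subgroup W) (h1 : N ≤ R.χ.ker) (h2 : N.FiniteIndex) (x : (cosX R N h1 h2).X)
    (c : Fin n) : ℤˣ :=
  Quotient.lift (s := QuotientGroup.rightRel N) (fun w => cc R κ c w) (by
    intro a b hab
    have hab' : b * a⁻¹ ∈ N := QuotientGroup.rightRel_apply.1 hab
    have h3 : R.χ (b * a⁻¹) = 1 := h1 hab'
    rw [map_mul, map_inv, mul_inv_eq_one] at h3
    exact cc_congr κ c h3.symm) x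

/-- the height modulo `d` on `N \ W` -/
def nsA (hh : IsHt R κ s h) (N : Subgroup W) (h1 : N ≤ R.χ.ker) (h2 : N.FiniteIndex) (d : ℕ)
    (hdN : ∀ x ∈ N, (d : ℤ) ∣ h x) (x : (cosX R N h1 h2).X) : ℕ :=
  Quotient.lift (s := QuotientGroup.rightRel N) (fun w => (h w % (d : ℤ)).toNat) (by
    intro a b hab
    have hab' : b * a⁻¹ ∈ N := QuotientGroup.rightRel_apply.1 hab
    have h3 : R.χ (b * a⁻¹) = 1 := h1 hab'
    have h4 := ht_add hh h3 a
    rw [inv_mul_cancel_right] at h4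
    obtain ⟨k, hk⟩ := hdN _ hab'
    show (h a % (d : ℤ)).toNat = (h b % (d : ℤ)).toNat
    rw [h4, hk, Int.mul_add_emod_self_left]) x

theorem mod_step {a b : ℤ} {d : ℕ} (hd : 0 < d) (hab : b = a - 1) :
    (a % (d : ℤ)).toNat = (b % (d : ℤ)).toNat + 1 ∨
      ((a % (d : ℤ)).toNat = 0 ∧ (b % (d : ℤ)).toNat + 1 = d) := by
  have hd' : (0 : ℤ) < d := by exact_mod_cast hd
  have h1 := Int.emod_nonneg a hd'.ne'
  have h2 := Int.emod_lt_of_pos a hd'
  have h3 := Int.mul_ediv_add_emod a d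
  rcases h1.lt_or_eq with h4 | h4
  · left
    have h5 : b % (d : ℤ) = a % (d : ℤ) - 1 := by
      rw [← Int.emod_eq_of_lt (a := a % (d : ℤ) - 1) (b := (d : ℤ)) (by omega) (by omega)]
      have : b = a % (d : ℤ) - 1 + (d : ℤ) * (a / (d : ℤ)) := by rw [hab]; linarith
      rw [this, Int.add_mul_emod_self_left]
    rw [h5]
    omega
  · right
    have h5 : b % (d : ℤ) = (d : ℤ) - 1 := by
      rw [← Int.emod_eq_of_lt (a := (d : ℤ) - 1) (b := (d : ℤ)) (by omega) (by omega)]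
      have : b = (d : ℤ) - 1 + (d : ℤ) * (a / (d : ℤ) - 1) := by rw [hab]; linarith
      rw [this, Int.add_mul_emod_self_left]
    rw [h5, ← h4]
    omega

/-- the set `N \ W` with heights modulo `d` -/
def nsSet (hh : IsHt R κ s h) (hκ : ∀ u v, adj u v → κ u ≠ κ v) (N : Subgroup W)
    (h1 : N ≤ R.χ.ker) (h2 : N.FiniteIndex) (d : ℕ) (hd : 0 < d)
    (hdN : ∀ x ∈ N, (d : ℤ) ∣ h x) : HSet V adj where
  X := (cosX R N h1 h2).X
  fin := (cosX R N h1 h2).fin
  dec := Classical.decEq _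
  ρ := (cosX R N h1 h2).ρ
  ρρ := (cosX R N h1 h2).ρρ
  comm := (cosX R N h1 h2).comm
  des x := stA κ s (nsCol R κ N h1 h2 x)
  des_self v := by
    rintro ⟨w⟩
    rw [stA_mem, stA_mem]
    show s v * cc R κ (κ v) (w * R.s v) = -1 ↔ ¬ s v * cc R κ (κ v) w = -1
    rw [cc_self, mul_neg, neg_inj]
    rcases Int.units_eq_one_or (s v * cc R κ (κ v) w) with h3 | h3
    · rw [h3]; simp
    · rw [h3]; simp
  des_ne u v huv := by
    rintro ⟨w⟩
    rw [stA_mem, stA_mem]
    show s u * cc R κ (κ u) (w * R.s v) = -1 ↔ s u * cc R κ (κ u) w = -1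
    rw [cc_ne R κ _ v _ (hκ u v huv)]
  d := d
  a := nsA hh N h1 h2 d hdN
  lt := by
    rintro ⟨w⟩
    show (h w % (d : ℤ)).toNat < d
    have hd' : (0 : ℤ) < d := by exact_mod_cast hd
    have h2 := Int.emod_lt_of_pos (h w) hd'
    omega
  step v := by
    rintro ⟨w⟩
    rw [stA_mem]
    intro h3
    have h4 : s v * cc R κ (κ v) w = -1 := h3
    have h5 := hh.step w v
    rw [h4] at h5
    exact mod_step hd (by rw [h5]; simp [sub_eq_add_neg])

theorem div_step {a b : ℤ} {d : ℕ} (hd : 0 < d) (hab : b = a - 1) :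
    b / (d : ℤ) = a / (d : ℤ) - (if (a % (d : ℤ)).toNat = 0 then 1 else 0) := by
  have hd' : (0 : ℤ) < d := by exact_mod_cast hd
  have h1 := Int.emod_nonneg a hd'.ne'
  have h2 := Int.emod_lt_of_pos a hd'
  have h3 := Int.mul_ediv_add_emod a d
  rcases h1.lt_or_eq with h4 | h4
  · rw [if_neg (by omega)]
    have : b = a % (d : ℤ) - 1 + (d : ℤ) * (a / (d : ℤ)) := by rw [hab]; linarith
    rw [this, Int.add_mul_ediv_left _ _ hd'.ne', Int.ediv_eq_zero_of_lt (by omega) (by omega)]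
    ring
  · rw [if_pos (by omega)]
    have : b = (d : ℤ) - 1 + (d : ℤ) * (a / (d : ℤ) - 1) := by rw [hab]; linarith
    rw [this, Int.add_mul_ediv_left _ _ hd'.ne', Int.ediv_eq_zero_of_lt (by omega) (by omega)]
    ring

theorem ns_cover (hh : IsHt R κ s h) (hκ : ∀ u v, adj u v → κ u ≠ κ v) (N : Subgroup W)
    (h1 : N ≤ R.χ.ker) (h2 : N.FiniteIndex) (d : ℕ) (hd : 0 < d)
    (hdN : ∀ x ∈ N, (d : ℤ) ∣ h x) (hsurj : ∃ x ∈ N, h x = d) (m : ℕ) [NeZero m]
    (N' : Subgroup W) (h1' : N' ≤ R.χ.ker) (h2' : N'.FiniteIndex)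
    (hN' : ∀ x, x ∈ N' ↔ x ∈ N ∧ ((d * m : ℕ) : ℤ) ∣ h x) :
    ∃ e : (cosX R N' h1' h2').X ≃ (nsSet hh hκ N h1 h2 d hd hdN).X × ZMod m,
      ∀ v x, e ((cosX R N' h1' h2').ρ v x) = (nsSet hh hκ N h1 h2 d hd hdN).cov m v (e x) := by
  have hd' : (0 : ℤ) < d := by exact_mod_cast hd
  have key : ∀ a b : W, b * a⁻¹ ∈ N → ∃ k : ℤ, h (b * a⁻¹) = (d : ℤ) * k ∧
      h b / (d : ℤ) = k + h a / (d : ℤ) := by
    intro a b hab
    obtain ⟨k, hk⟩ := hdN _ hab
    refine ⟨k, hk, ?_⟩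
    have h4 := ht_add hh (h1 hab) a
    rw [inv_mul_cancel_right] at h4
    rw [h4, hk, add_comm, Int.add_mul_ediv_left _ _ hd'.ne', add_comm]
  let q : W → ZMod m := fun w => -((h w / (d : ℤ) : ℤ) : ZMod m)
  let F : (cosX R N' h1' h2').X → (nsSet hh hκ N h1 h2 d hd hdN).X × ZMod m :=
    Quotient.lift (s := QuotientGroup.rightRel N')
      (fun w => ((Quotient.mk (QuotientGroup.rightRel N) w : (cosX R N h1 h2).X), q w)) (by
      intro a b hab
      have hab' : b * a⁻¹ ∈ N' := QuotientGroup.rightRel_apply.1 hab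
      obtain ⟨h3, h4⟩ := (hN' _).1 hab'
      refine Prod.ext (Quotient.sound (s := QuotientGroup.rightRel N)
        (QuotientGroup.rightRel_apply.2 h3)) ?_
      obtain ⟨k, hk, hk2⟩ := key a b h3
      show -((h a / (d : ℤ) : ℤ) : ZMod m) = -((h b / (d : ℤ) : ℤ) : ZMod m)
      rw [hk, Nat.cast_mul] at h4
      have h5 : (m : ℤ) ∣ k := Int.dvd_of_mul_dvd_mul_left hd'.ne' h4
      rw [hk2, Int.cast_add, (CharP.intCast_eq_zero_iff (ZMod m) m k).2 h5, zero_add])
  have hF : ∀ w : W, F (Quotient.mk (QuotientGroup.rightRel N') w) =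
      (Quotient.mk (QuotientGroup.rightRel N) w, q w) := fun _ => rfl
  have hbij : Function.Bijective F := by
    constructor
    · rintro ⟨a⟩ ⟨b⟩ hab
      have e1 : (Quotient.mk (QuotientGroup.rightRel N) a : (cosX R N h1 h2).X) =
        Quotient.mk (QuotientGroup.rightRel N) b := congrArg Prod.fst hab
      have e2 : q a = q b := congrArg Prod.snd hab
      have h3 : b * a⁻¹ ∈ N := QuotientGroup.rightRel_apply.1
        (Quotient.exact (s := QuotientGroup.rightRel N) e1)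
      obtain ⟨k, hk, hk2⟩ := key a b h3
      have e3 : -((h a / (d : ℤ) : ℤ) : ZMod m) = -((h b / (d : ℤ) : ℤ) : ZMod m) := e2
      rw [hk2, Int.cast_add, neg_inj] at e3
      have h5 : ((k : ℤ) : ZMod m) = 0 := by linear_combination -e3
      rw [CharP.intCast_eq_zero_iff (ZMod m) m k] at h5
      refine Quotient.sound (s := QuotientGroup.rightRel N')
        (QuotientGroup.rightRel_apply.2 ((hN' _).2 ⟨h3, ?_⟩))
      rw [hk, Nat.cast_mul]
      exact mul_dvd_mul_left _ h5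
    · rintro ⟨⟨w⟩, i⟩
      obtain ⟨x1, hx1, hd1⟩ := hsurj
      obtain ⟨j, hj⟩ := ZMod.intCast_surjective (-i - ((h w / (d : ℤ) : ℤ) : ZMod m))
      have hm : (x1 ^ j * w) * w⁻¹ ∈ N := by
        rw [mul_inv_cancel_right]
        exact zpow_mem hx1 j
      obtain ⟨k, hk, hk2⟩ := key w (x1 ^ j * w) hm
      rw [mul_inv_cancel_right, ht_zpow hh (h1 hx1), hd1, mul_comm] at hk
      have hkj : k = j := (mul_left_cancel₀ hd'.ne' hk).symm
      refine ⟨Quotient.mk (QuotientGroup.rightRel N') (x1 ^ j * w), Prod.ext ?_ ?_⟩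
      · refine Quotient.sound (s := QuotientGroup.rightRel N)
          (QuotientGroup.rightRel_apply.2 ?_)
        have h8 := inv_mem hm
        rwa [mul_inv_rev, inv_inv] at h8
      · show -((h (x1 ^ j * w) / (d : ℤ) : ℤ) : ZMod m) = i
        rw [hk2, hkj, Int.cast_add, hj]
        ring
  refine ⟨Equiv.ofBijective F hbij, fun v => ?_⟩
  rintro ⟨w⟩
  show ((Quotient.mk (QuotientGroup.rightRel N) (w * R.s v) : (cosX R N h1 h2).X), q (w * R.s v)) =
    (nsSet hh hκ N h1 h2 d hd hdN).cov m v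
      ((Quotient.mk (QuotientGroup.rightRel N) w : (cosX R N h1 h2).X), q w)
  refine Prod.ext rfl ?_
  have hdes : v ∈ (nsSet hh hκ N h1 h2 d hd hdN).des
      (Quotient.mk (QuotientGroup.rightRel N) w : (cosX R N h1 h2).X) ↔
      s v * cc R κ (κ v) w = -1 := stA_mem
  have hwr : ∀ w' : W, (nsSet hh hκ N h1 h2 d hd hdN).wr
      (Quotient.mk (QuotientGroup.rightRel N) w' : (cosX R N h1 h2).X) =
      if (h w' % (d : ℤ)).toNat = 0 then 1 else 0 := fun _ => rfl
  show q (w * R.s v) = if v ∈ (nsSet hh hκ N h1 h2 d hd hdN).des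
      (Quotient.mk (QuotientGroup.rightRel N) w : (cosX R N h1 h2).X) then
      q w + (((nsSet hh hκ N h1 h2 d hd hdN).wr
        (Quotient.mk (QuotientGroup.rightRel N) w : (cosX R N h1 h2).X) : ℕ) : ZMod m)
    else q w - (((nsSet hh hκ N h1 h2 d hd hdN).wr
        (Quotient.mk (QuotientGroup.rightRel N) (w * R.s v) : (cosX R N h1 h2).X) : ℕ) : ZMod m)
  rw [hwr, hwr]
  have h5 := hh.step w v
  by_cases hv : s v * cc R κ (κ v) w = -1
  · rw [if_pos (hdes.2 hv)]
    rw [hv] at h5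
    have h6 := div_step hd (a := h w) (b := h (w * R.s v)) (by rw [h5]; simp [sub_eq_add_neg])
    show -((h (w * R.s v) / (d : ℤ) : ℤ) : ZMod m) = -((h w / (d : ℤ) : ℤ) : ZMod m) + _
    rw [h6]
    push_cast
    split_ifs <;> ring
  · rw [if_neg fun h7 => hv (hdes.1 h7)]
    have hv1 : s v * cc R κ (κ v) w = 1 := (Int.units_eq_one_or _).resolve_right hv
    rw [hv1] at h5
    have h6 := div_step hd (a := h (w * R.s v)) (b := h w) (by rw [h5]; simp)
    show -((h (w * R.s v) / (d : ℤ) : ℤ) : ZMod m) = -((h w / (d : ℤ) : ℤ) : ZMod m) - _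
    rw [h6]
    push_cast
    split_ifs <;> ring

end

theorem nst : NSTStmt := by
  intro V _ _ adj hs W _ R n κ s hκ hmix h hh K _ _
  obtain ⟨u, v, huv, hsuv⟩ := hmix
  obtain ⟨d, hd, hdK, x1, hx1, hd1⟩ := exists_d hh (ht_ne hh huv hsuv) K
  obtain ⟨hfin, hmap, hcard⟩ := idx V adj hs W R
  obtain ⟨hN2, hN1⟩ := hmap K inferInstance
  have hdN : ∀ x ∈ K.map R.χ.ker.subtype, (d : ℤ) ∣ h x := by
    rintro _ ⟨x, hx, rfl⟩
    exact hdK x hx
  refine ⟨nsSet hh hκ (K.map R.χ.ker.subtype) hN1 hN2 d hd hdN,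
    nsCol R κ (K.map R.χ.ker.subtype) hN1 hN2, fun _ => rfl, ?_, ?_, ?_⟩
  · rintro v ⟨w⟩ c
    show cc R κ c (w * R.s v) = if c = κ v then - cc R κ c w else cc R κ c w
    by_cases hc : c = κ v
    · rw [if_pos hc, hc, cc_self]
    · rw [if_neg hc, cc_ne R κ c v w hc]
  · have h3 := hcard (K.map R.χ.ker.subtype) hN1 hN2
    have h4 : (K.map R.χ.ker.subtype).subgroupOf R.χ.ker = K := by
      rw [Subgroup.subgroupOf, Subgroup.comap_map_eq_self_of_injective]
      exact Subtype.val_injective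
    rw [h4] at h3
    exact h3.1.trans h3.2
  · intro m _
    have hdm : NeZero (d * m) := ⟨mul_ne_zero hd.ne' (NeZero.ne m)⟩
    have hL : (htHom hh (d * m)).ker.FiniteIndex := by
      haveI : Finite (Multiplicative (ZMod (d * m))) := inferInstanceAs (Finite (ZMod (d * m)))
      infer_instance
    refine ⟨K ⊓ (htHom hh (d * m)).ker, inferInstance, inferInstance, inf_le_left, ?_, ?_⟩
    · -- the index
      let ψ : K →* Multiplicative (ZMod m) :=
        { toFun := fun x => Multiplicative.ofAdd ((h x.1.1 / (d : ℤ) : ℤ) : ZMod m)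
          map_one' := by
            show Multiplicative.ofAdd ((h 1 / (d : ℤ) : ℤ) : ZMod m) = 1
            rw [hh.one, Int.zero_ediv, Int.cast_zero, ofAdd_zero]
          map_mul' := fun x y => by
            show Multiplicative.ofAdd ((h (x.1.1 * y.1.1) / (d : ℤ) : ℤ) : ZMod m) = _
            rw [ht_add hh x.1.2, Int.add_ediv_of_dvd_left (hdK _ x.2), Int.cast_add, ofAdd_add] }
      have hψ : ∀ x, ψ x = Multiplicative.ofAdd ((h x.1.1 / (d : ℤ) : ℤ) : ZMod m) :=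
        fun _ => rfl
      have hd' : (d : ℤ) ≠ 0 := by exact_mod_cast hd.ne'
      have hker : ψ.ker = (K ⊓ (htHom hh (d * m)).ker).subgroupOf K := by
        ext x
        rw [MonoidHom.mem_ker, Subgroup.mem_subgroupOf, Subgroup.mem_inf, mem_htHom, hψ,
          ← ofAdd_zero, Multiplicative.ofAdd.injective.eq_iff,
          CharP.intCast_eq_zero_iff (ZMod m) m]
        obtain ⟨k, hk⟩ := hdK _ x.2
        rw [hk, Int.mul_ediv_cancel_left _ hd', Nat.cast_mul]
        exact ⟨fun h5 => ⟨x.2, mul_dvd_mul_left _ h5⟩,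
          fun h5 => Int.dvd_of_mul_dvd_mul_left hd' h5.2⟩
      have hrange : ψ.range = ⊤ := by
        rw [eq_top_iff]
        intro z _
        obtain ⟨j, hj⟩ := ZMod.intCast_surjective (Multiplicative.toAdd z)
        refine ⟨⟨x1 ^ j, zpow_mem hx1 j⟩, ?_⟩
        rw [hψ]
        show Multiplicative.ofAdd ((h ((x1 ^ j : R.χ.ker) : W) / (d : ℤ) : ℤ) : ZMod m) = z
        rw [Subgroup.coe_zpow, ht_zpow hh x1.2, hd1, Int.mul_ediv_cancel _ hd', hj]
        rfl
      have hidx : (K ⊓ (htHom hh (d * m)).ker).relIndex K = m := by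
        rw [Subgroup.relIndex, ← hker, Subgroup.index_ker, hrange,
          Nat.card_congr (Subgroup.topEquiv).toEquiv]
        show Nat.card (ZMod m) = m
        rw [Nat.card_eq_fintype_card, ZMod.card]
      have h5 := Subgroup.relIndex_mul_index (inf_le_left : K ⊓ (htHom hh (d * m)).ker ≤ K)
      rw [hidx] at h5
      rw [← h5, mul_comm]
    · intro h1 h2
      refine ns_cover hh hκ (K.map R.χ.ker.subtype) hN1 hN2 d hd hdN ⟨x1.1, ⟨x1, hx1, rfl⟩, hd1⟩ m
        ((K ⊓ (htHom hh (d * m)).ker).map R.χ.ker.subtype) h1 h2 fun x => ?_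
      constructor
      · rintro ⟨y, hy, rfl⟩
        exact ⟨⟨y, hy.1, rfl⟩, (mem_htHom hh (d * m) y).1 hy.2⟩
      · rintro ⟨⟨y, hy, rfl⟩, h3⟩
        exact ⟨y, ⟨hy, (mem_htHom hh (d * m) y).2 h3⟩, rfl⟩

end Pool.LU
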