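import Pool.Agent.H3.LU.BStmts

/-!
Project LU, part B1, module RAF: facts about the subgroups generated by cliques of generators.
-/

set_option autoImplicit false

open scoped BigOperators Topology

noncomputable section

namespace Pool.LU

section RAF

variable {V : Type} [DecidableEq V] {adj : V → V → Prop} {W : Type} [Group W] (R : RA V adj W)

/-- the product of the generators in a list -/
def rafP (L : List V) : W := (L.map R.s).prod

theorem rafP_nil : rafP R [] = 1 := rfl

theorem rafP_append (L L' : List V) : rafP R (L ++ L') = rafP R L * rafP R L' := by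
  simp [rafP]

theorem rafP_single (v : V) : rafP R [v] = R.s v := by simp [rafP]

theorem rafP_mem {σ : Set V} {L : List V} (h : ∀ v ∈ L, v ∈ σ) :
    rafP R L ∈ Subgroup.closure (R.s '' σ) := by
  apply Subgroup.list_prod_mem
  intro x hx
  rw [List.mem_map] at hx
  obtain ⟨v, hv, rfl⟩ := hx
  exact Subgroup.subset_closure ⟨v, h v hv, rfl⟩

theorem raf_s_inv (v : V) : (R.s v)⁻¹ = R.s v := inv_eq_of_mul_eq_one_left (R.s_sq v)

theorem raf_chi (L : List V) (hL : L.Nodup) (v : V) :
    R.χ (rafP R L) v = if v ∈ L then -1 else 1 := by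
  induction L with
  | nil => simp [rafP]
  | cons u L ih =>
    have h1 : rafP R (u :: L) = R.s u * rafP R L := by simp [rafP]
    rw [h1, map_mul, R.χ_s, Pi.mul_apply, ih hL.of_cons]
    have hu : u ∉ L := by
      rw [List.nodup_cons] at hL
      exact hL.1
    by_cases hv : v = u
    · subst hv
      simp [hu]
    · rw [Pi.mulSingle_eq_of_ne hv]
      simp [hv]

theorem raf_supp (σ : Set V) (v : V) (hv : v ∉ σ) : ∀ g ∈ Subgroup.closure (R.s '' σ),
    R.χ g v = 1 := by
  intro g hg
  induction hg using Subgroup.closure_induction with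
  | mem x hx =>
    obtain ⟨u, hu, rfl⟩ := hx
    rw [R.χ_s, Pi.mulSingle_eq_of_ne]
    rintro rfl
    exact hv hu
  | one => simp
  | mul x y _ _ hx hy => rw [map_mul, Pi.mul_apply, hx, hy, one_mul]
  | inv x _ hx => rw [map_inv, Pi.inv_apply, hx, inv_one]

theorem raf_list {σ : Set V} (hσ : ∀ u ∈ σ, ∀ v ∈ σ, u ≠ v → adj u v) :
    ∀ g ∈ Subgroup.closure (R.s '' σ), ∃ L : List V, L.Nodup ∧ (∀ v ∈ L, v ∈ σ) ∧ g = rafP R L := by
  have key : ∀ (L : List V) (u : V), L.Nodup → (∀ v ∈ L, v ∈ σ) → u ∈ σ →
      ∃ L' : List V, L'.Nodup ∧ (∀ v ∈ L', v ∈ σ) ∧ rafP R L * R.s u = rafP R L' := by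
    intro L u hL hs hu
    by_cases h : u ∈ L
    · refine ⟨L.erase u, hL.erase u, fun v hv => hs v (List.mem_of_mem_erase hv), ?_⟩
      have hp : L.Perm (L.erase u ++ [u]) :=
        (List.perm_cons_erase h).trans (List.perm_append_singleton u (L.erase u)).symm
      have hc : (L.map R.s).Pairwise Commute := by
        rw [List.pairwise_map]
        refine List.Pairwise.imp_of_mem ?_ hL
        intro a b ha hb hab
        exact R.s_comm a b (hσ a (hs a ha) b (hs b hb) hab)
      have h2 : rafP R L = rafP R (L.erase u ++ [u]) := (hp.map R.s).prod_eq' hc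
      rw [h2, rafP_append, rafP_single, mul_assoc, R.s_sq, mul_one]
    · refine ⟨L ++ [u], ?_, ?_, ?_⟩
      · rw [List.nodup_append]
        refine ⟨hL, by simp, ?_⟩
        intro a ha b hb
        rw [List.mem_singleton] at hb
        rintro rfl
        exact h (hb ▸ ha)
      · intro v hv
        rw [List.mem_append, List.mem_singleton] at hv
        rcases hv with hv | rfl
        · exact hs v hv
        · exact hu
      · rw [rafP_append, rafP_single]
  intro g hg
  induction hg using Subgroup.closure_induction_right with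
  | one => exact ⟨[], List.nodup_nil, by simp, rfl⟩
  | mul_right x _ y hy ih =>
    obtain ⟨L, h1, h2, h3⟩ := ih
    obtain ⟨u, hu, rfl⟩ := hy
    obtain ⟨L', h4, h5, h6⟩ := key L u h1 h2 hu
    exact ⟨L', h4, h5, by rw [h3, h6]⟩
  | mul_inv_cancel x _ y hy ih =>
    obtain ⟨L, h1, h2, h3⟩ := ih
    obtain ⟨u, hu, rfl⟩ := hy
    obtain ⟨L', h4, h5, h6⟩ := key L u h1 h2 hu
    exact ⟨L', h4, h5, by rw [h3, raf_s_inv, h6]⟩

theorem raf_inj {σ : Set V} (hσ : ∀ u ∈ σ, ∀ v ∈ σ, u ≠ v → adj u v) :
    ∀ g ∈ Subgroup.closure (R.s '' σ), R.χ g = 1 → g = 1 := by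
  intro g hg h
  obtain ⟨L, h1, h2, h3⟩ := raf_list R hσ g hg
  cases L with
  | nil => exact h3
  | cons u L =>
    exfalso
    have h4 := raf_chi R (u :: L) h1 u
    rw [← h3, h] at h4
    simp at h4

theorem raf_step (w : W) (v : V) : R.len (w * R.s v) ≤ R.len w + 1 := by
  rcases R.len_s w v with h | h <;> omega

theorem raf_up (w : W) (L : List V) : R.len (w * rafP R L) ≤ R.len w + L.length := by
  induction L using List.reverseRecOn with
  | nil => simp [rafP]
  | append_singleton L v ih =>
    rw [rafP_append, rafP_single, ← mul_assoc, List.length_append, List.length_singleton]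
    have := raf_step R (w * rafP R L) v
    omega

theorem raf_len {σ : Set V} (hσ : ∀ u ∈ σ, ∀ v ∈ σ, u ≠ v → adj u v) (w : W)
    (hw : ∀ v ∈ σ, R.len w < R.len (w * R.s v)) (L : List V) (hL : L.Nodup)
    (hs : ∀ v ∈ L, v ∈ σ) : R.len (w * rafP R L) = R.len w + L.length ∧
      ∀ u ∈ σ, u ∉ L → R.len (w * rafP R L) < R.len (w * rafP R L * R.s u) := by
  induction L using List.reverseRecOn with
  | nil =>
    simp only [rafP_nil, mul_one, List.length_nil, add_zero, true_and]
    intro u hu _
    exact hw u hu
  | append_singleton L v ih =>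
    rw [List.nodup_append] at hL
    obtain ⟨h1, h2⟩ := ih hL.1 (fun u hu => hs u (List.mem_append_left _ hu))
    have hvL : v ∉ L := fun h => hL.2.2 v h v (by simp) rfl
    have hv : v ∈ σ := hs v (by simp)
    have h3 := h2 v hv hvL
    rw [rafP_append, rafP_single, ← mul_assoc, List.length_append, List.length_singleton]
    constructor
    · rcases R.len_s (w * rafP R L) v with h | h <;> omega
    · intro u hu huL
      rw [List.mem_append, List.mem_singleton, not_or] at huL
      have h4 := h2 u hu huL.1
      have h5 := R.desc_s (w * rafP R L) u v (hσ u hu v hv huL.2)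
      have h6 : ¬ (R.len (w * rafP R L * R.s v * R.s u) < R.len (w * rafP R L * R.s v)) := by
        rw [h5]
        omega
      rcases R.len_s (w * rafP R L * R.s v) u with h | h <;> omega

end RAF

theorem raf : RAFStmt := by
  intro V _ _ adj W _ R
  refine ⟨?_, ?_, ?_, ?_, ?_, ?_, ?_⟩
  · intro σ hσ
    exact raf_inj R hσ
  · exact raf_supp R
  · intro σ ε hε
    refine ⟨rafP R (Finset.univ.filter (fun v => ε v ≠ 1)).toList, ?_, ?_⟩
    · apply rafP_mem
      intro v hv
      rw [Finset.mem_toList, Finset.mem_filter] at hv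
      by_contra h
      exact hv.2 (hε v h)
    · funext v
      rw [raf_chi R _ (Finset.nodup_toList _)]
      by_cases h : ε v = 1
      · simp [h]
      · have := Int.units_ne_iff_eq_neg.1 h
        simp [this]
  · intro σ hσ
    have hf : ((fun g => R.χ g) '' (Subgroup.closure (R.s '' σ) : Set W)).Finite := Set.toFinite _
    refine Set.Finite.of_finite_image hf ?_
    intro g hg g' hg' h
    have h1 : g⁻¹ * g' ∈ Subgroup.closure (R.s '' σ) := mul_mem (inv_mem hg) hg'
    have h2 := raf_inj R hσ _ h1 (by
      simp only at h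
      rw [map_mul, map_inv, h, inv_mul_cancel])
    exact (inv_mul_eq_one.1 h2)
  · intro σ hσ w hw g hg
    obtain ⟨L, h1, h2, h3⟩ := raf_list R hσ g hg
    have h4 := (raf_len R hσ w hw L h1 h2).1
    rw [h3, h4]
    refine ⟨by omega, fun h => ?_⟩
    have : L = [] := List.length_eq_zero_iff.1 (by omega)
    rw [this]
    rfl
  · intro σ hσ
    refine ⟨Fintype.card V, fun w g hg => ?_⟩
    obtain ⟨L, h1, h2, h3⟩ := raf_list R hσ g hg
    rw [h3]
    have h4 := raf_up R w L
    have h5 : L.length ≤ Fintype.card V := h1.length_le_card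
    omega
  · have hs : Function.Surjective (rafP R) := by
      intro g
      have hg : g ∈ Subgroup.closure (Set.range R.s) := by
        rw [R.gen]
        trivial
      induction hg using Subgroup.closure_induction_right with
      | one => exact ⟨[], rfl⟩
      | mul_right x _ y hy ih =>
        obtain ⟨L, rfl⟩ := ih
        obtain ⟨u, rfl⟩ := hy
        exact ⟨L ++ [u], by rw [rafP_append, rafP_single]⟩
      | mul_inv_cancel x _ y hy ih =>
        obtain ⟨L, rfl⟩ := ih
        obtain ⟨u, rfl⟩ := hy
        exact ⟨L ++ [u], by rw [rafP_append, rafP_single, raf_s_inv]⟩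
    exact hs.countable

end Pool.LU
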