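import Pool.Agent.H3.LU.BStmts

/-!
Project LU, part B1, module TOP: the topology of the space `E = W × P / ~`.
-/

set_option autoImplicit false

open scoped BigOperators Topology

noncomputable section

namespace Pool.LU

section TOP

variable {n : ℕ} {V : Type} [DecidableEq V] {P : SPoly n V} {W : Type} [Group W]
  (R : RA V P.adj W)

theorem top_eq (w w' : W) (x x' : Pt P) :
    mk R w x = mk R w' x' ↔ x = x' ∧ w⁻¹ * w' ∈ stab R x.1 := by
  constructor
  · intro h
    exact Quotient.exact h
  · intro h
    exact Quotient.sound h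

theorem top_cont (w : W) : Continuous (mk R w) := by
  rw [continuous_iff_coinduced_le]
  exact le_iSup (fun w : W => TopologicalSpace.coinduced (mk R w) inferInstance) w

theorem top_dom (Z : Type) [TopologicalSpace Z] (f : ESp R → Z)
    (h : ∀ w, Continuous (f ∘ mk R w)) : Continuous f := by
  apply continuous_iSup_dom.2
  intro w
  exact continuous_coinduced_dom.2 (h w)

theorem top_isOpen (U : Set (ESp R)) : IsOpen U ↔ ∀ w, IsOpen (mk R w ⁻¹' U) := by
  rw [isOpen_iSup_iff]
  exact forall_congr' fun w => isOpen_coinduced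

theorem top_stab_mono {x y : Fin n → ℝ} (h : P.sig x ⊆ P.sig y) : stab R x ≤ stab R y :=
  Subgroup.closure_mono (Set.image_mono h)

theorem top_star_cham (a w : W) (y : Fin n → ℝ) (x : Pt P) :
    mk R w x ∈ star R a y ↔ P.sig x.1 ⊆ P.sig y ∧ a⁻¹ * w ∈ stab R y := by
  constructor
  · rintro ⟨g, x', hg, hs, h⟩
    rw [top_eq] at h
    obtain ⟨rfl, h⟩ := h
    refine ⟨hs, ?_⟩
    have h1 := mul_mem hg (inv_mem (top_stab_mono R hs h))
    have h2 : g * (w⁻¹ * (a * g))⁻¹ = a⁻¹ * w := by group
    rwa [h2] at h1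
  · rintro ⟨h1, h2⟩
    exact ⟨a⁻¹ * w, x, h2, h1, by rw [mul_inv_cancel_left]⟩

end TOP

theorem top (hP : POLStmt) : TOPStmt := by
  intro n V _ _ P W _ R hG
  refine ⟨top_eq R, top_cont R, fun Z _ f h => top_dom R Z f h, ?_, ?_, ?_, ?_, ?_⟩
  · intro g
    apply top_dom
    intro w
    have : (fun p : ESp R => g • p) ∘ mk R w = mk R (g * w) := rfl
    rw [this]
    exact top_cont R _
  · intro a y _
    rw [top_isOpen]
    intro w
    by_cases h : a⁻¹ * w ∈ stab R y
    · have : mk R w ⁻¹' star R a y = {x : Pt P | P.sig x.1 ⊆ P.sig y} := by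
        ext x
        rw [Set.mem_preimage, top_star_cham]
        simp [h]
      rw [this]
      exact (hP n V P hG).isOpen _
    · have : mk R w ⁻¹' star R a y = ∅ := by
        ext x
        rw [Set.mem_preimage, top_star_cham]
        simp [h]
      rw [this]
      exact isOpen_empty
  · intro a x
    exact ⟨1, x, one_mem _, subset_rfl, by rw [mul_one]⟩
  · rintro a g y x _ _ hs hg _ ⟨g', z, hg', hz, rfl⟩
    exact ⟨g * g', z, mul_mem hg (top_stab_mono R hs hg'), hz.trans hs, by rw [mul_assoc]⟩
  · intro a w y x _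
    exact top_star_cham R a w y x

end Pool.LU
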